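import Pool.Agent.Weih.Order

set_option autoImplicit false

namespace Pool.Agent.Weih

open Nat.Partrec (Code)
open Encodable

/-- trivial reduction: identity on instances and solutions -/
def Sub (f g : Problem) : Prop := ∀ x ∈ f.dom, x ∈ g.dom ∧ g.sol x ⊆ f.sol x

theorem Sub.refl (f : Problem) : Sub f f := fun _ hx => ⟨hx, subset_rfl⟩

theorem Sub.trans {f g h : Problem} (h1 : Sub f g) (h2 : Sub g h) : Sub f h := fun x hx =>
  ⟨(h2 x (h1 x hx).1).1, (h2 x (h1 x hx).1).2.trans (h1 x hx).2⟩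

theorem Red.sub_left {k : Code × Code} {f g h : Problem} (h1 : Sub f g) (h2 : Red k g h) :
    Red k f h := by
  intro x hx
  obtain ⟨hx', hs⟩ := h1 x hx
  obtain ⟨z, hz, happ, hy⟩ := h2 x hx'
  refine ⟨z, hz, happ, fun y hy' => ?_⟩
  obtain ⟨w, hw, hw'⟩ := hy y hy'
  exact ⟨w, hs hw, hw'⟩

theorem Red.sub_right {k : Code × Code} {f g h : Problem} (h1 : Red k f g) (h2 : Sub g h) :
    Red k f h := by
  intro x hx
  obtain ⟨z, hz, happ, hy⟩ := h1 x hx
  obtain ⟨hz', hs⟩ := h2 z hz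
  exact ⟨z, hz', happ, fun y hy' => hy y (hs hy')⟩

theorem Sub.wle {f g : Problem} (h : Sub f g) : WLe f g := by
  obtain ⟨k, hk⟩ := exists_red_self
  exact ⟨k, (hk f).sub_right h⟩

theorem le_def {f g : Problem} : f ≤ g ↔ ∃ k : Code × Code, Red k f g := Iff.rfl

theorem Red.le {k : Code × Code} {f g : Problem} (h : Red k f g) : f ≤ g := ⟨k, h⟩

theorem Sub.le {f g : Problem} (h : Sub f g) : f ≤ g := h.wle

/-- the problem without instances -/
def zero : Problem := ⟨fun _ => ∅⟩

theorem zero_dom : zero.dom = ∅ := by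
  ext x; simp [zero, Problem.dom]

theorem red_zero (k : Code × Code) (f : Problem) : Red k zero f := by
  intro x hx
  simp [zero_dom] at hx

theorem zero_sub (f : Problem) : Sub zero f := by
  intro x hx
  simp [zero_dom] at hx

theorem zero_le (f : Problem) : zero ≤ f := (zero_sub f).le

/-- supremum of a family with respect to trivial reductions -/
def supFam (A : Set Problem) : Problem :=
  ⟨fun x => {y | (∃ f ∈ A, x ∈ f.dom) ∧ ∀ f ∈ A, x ∈ f.dom → y ∈ f.sol x}⟩

/-- infimum of a family with respect to trivial reductions -/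
def infFam (A : Set Problem) : Problem :=
  ⟨fun x => {y | (∀ g ∈ A, x ∈ g.dom) ∧ ∃ g ∈ A, y ∈ g.sol x}⟩

theorem supFam_aux {A : Set Problem} {k : Code × Code} {h : Problem}
    (hA : ∀ f ∈ A, Red k f h) {x z y : ℕ → ℕ} {f : Problem} (hf : f ∈ A) (hx : x ∈ f.dom)
    (hz : App k.1 x z) (hy : y ∈ h.sol z) :
    ∃ w, App k.2 (join x y) w ∧ w ∈ (supFam A).sol x := by
  obtain ⟨z', hz', happ, h1⟩ := hA f hf x hx
  have := App.unique hz happ
  subst this
  obtain ⟨w, hw, hw'⟩ := h1 y hy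
  refine ⟨w, hw', ⟨f, hf, hx⟩, fun f' hf' hx' => ?_⟩
  obtain ⟨z'', hz'', happ', h1'⟩ := hA f' hf' x hx'
  have := App.unique hz happ'
  subst this
  obtain ⟨w', hw1, hw2⟩ := h1' y hy
  have := App.unique hw' hw2
  subst this
  exact hw1

theorem sub_supFam {A : Set Problem} {k : Code × Code} {h : Problem}
    (hA : ∀ f ∈ A, Red k f h) {f : Problem} (hf : f ∈ A) : Sub f (supFam A) := by
  intro x hx
  obtain ⟨z, hz, happ, -⟩ := hA f hf x hx
  obtain ⟨y, hy⟩ := hz
  obtain ⟨w, -, hw⟩ := supFam_aux hA hf hx happ hy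
  exact ⟨⟨w, hw⟩, fun y hy => hy.2 f hf hx⟩

theorem supFam_red {A : Set Problem} {k : Code × Code} {h : Problem}
    (hA : ∀ f ∈ A, Red k f h) : Red k (supFam A) h := by
  intro x hx
  obtain ⟨y0, ⟨f, hf, hxf⟩, -⟩ := hx
  obtain ⟨z, hz, happ, -⟩ := hA f hf x hxf
  refine ⟨z, hz, happ, fun y hy => ?_⟩
  obtain ⟨w, hw, hw'⟩ := supFam_aux hA hf hxf happ hy
  exact ⟨w, hw', hw⟩

theorem infFam_sub {A : Set Problem} {g : Problem} (hg : g ∈ A) : Sub (infFam A) g := by
  intro x hx
  obtain ⟨y0, h1, -⟩ := hx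
  exact ⟨h1 g hg, fun y hy => ⟨h1, g, hg, hy⟩⟩

theorem red_infFam {A : Set Problem} (hne : A.Nonempty) {k : Code × Code} {h : Problem}
    (hA : ∀ g ∈ A, Red k h g) : Red k h (infFam A) := by
  intro x hx
  obtain ⟨g0, hg0⟩ := hne
  obtain ⟨z, hz, happ, -⟩ := hA g0 hg0 x hx
  have hall : ∀ g ∈ A, z ∈ g.dom := by
    intro g hg
    obtain ⟨z', hz', happ', -⟩ := hA g hg x hx
    rwa [App.unique happ happ']
  refine ⟨z, ?_, happ, ?_⟩
  · obtain ⟨y, hy⟩ := hz
    exact ⟨y, hall, g0, hg0, hy⟩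
  · rintro y ⟨-, g, hg, hy⟩
    obtain ⟨z', hz', happ', h1⟩ := hA g hg x hx
    have := App.unique happ happ'
    subst this
    exact h1 y hy

/-- tagged sum -/
def tsum (H : ℕ → Problem) : Problem := ⟨fun x => (H (x 0)).sol (tail x)⟩

theorem tsum_sol (H : ℕ → Problem) (x : ℕ → ℕ) : (tsum H).sol x = (H (x 0)).sol (tail x) := rfl

theorem mem_tsum_dom {H : ℕ → Problem} {x : ℕ → ℕ} :
    x ∈ (tsum H).dom ↔ tail x ∈ (H (x 0)).dom := Iff.rfl

/-- the problem `f` with its instances tagged by `c` -/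
def one (c : ℕ) (f : Problem) : Problem := tsum (fun e => if e = c then f else zero)

theorem mem_one_dom {c : ℕ} {f : Problem} {x : ℕ → ℕ} :
    x ∈ (one c f).dom ↔ x 0 = c ∧ tail x ∈ f.dom := by
  unfold one
  rw [mem_tsum_dom]
  by_cases h : x 0 = c
  · simp [h]
  · simp [h, zero_dom]

theorem one_sol {c : ℕ} {f : Problem} {x : ℕ → ℕ} (h : x 0 = c) :
    (one c f).sol x = f.sol (tail x) := by
  unfold one
  rw [tsum_sol]
  simp [h]

theorem one_sub_tsum (H : ℕ → Problem) (c : ℕ) : Sub (one c (H c)) (tsum H) := by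
  intro x hx
  rw [mem_one_dom] at hx
  obtain ⟨h1, h2⟩ := hx
  refine ⟨?_, ?_⟩
  · rw [mem_tsum_dom, h1]; exact h2
  · rw [one_sol h1, tsum_sol, h1]

theorem le_one (c : ℕ) (f : Problem) : f ≤ one c f := by
  obtain ⟨a, ha⟩ := exists_code_cons c
  obtain ⟨d, hd⟩ := exists_code_snd
  refine ⟨(a, d), fun x hx => ⟨cons c x, ?_, ha x, ?_⟩⟩
  · rw [mem_one_dom]; exact ⟨rfl, hx⟩
  · intro y hy
    rw [one_sol (by rfl)] at hy
    exact ⟨y, hy, hd x y⟩

theorem le_tsum (H : ℕ → Problem) (c : ℕ) : H c ≤ tsum H :=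
  (le_one c (H c)).trans (one_sub_tsum H c).le

theorem tsum_le {H : ℕ → Problem} {g : Problem} (k : ℕ → Code × Code) (hk : Computable k)
    (h : ∀ e, Red (k e) (H e) g) : tsum H ≤ g := by
  obtain ⟨c1, hc1⟩ := exists_code_univ (fun e => (k e).1) (Computable.fst.comp hk)
  obtain ⟨c2, hc2⟩ := exists_code_univ (fun e => (k e).2) (Computable.snd.comp hk)
  obtain ⟨sh, hsh⟩ := exists_code_shift
  obtain ⟨c3, hc3⟩ := App.comp sh c2
  refine ⟨(c1, c3), fun x hx => ?_⟩
  rw [mem_tsum_dom] at hx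
  obtain ⟨z, hz, happ, h1⟩ := h (x 0) (tail x) hx
  refine ⟨z, hz, ?_, fun y hy => ?_⟩
  · have := hc1 _ _ _ happ
    rwa [cons_tail] at this
  · obtain ⟨w, hw, hw'⟩ := h1 y hy
    refine ⟨w, hw, ?_⟩
    refine hc3 _ (cons (x 0) (join (tail x) y)) _ ?_ (hc2 _ _ _ hw')
    have := hsh (x 0) (tail x) y
    rwa [cons_tail] at this

theorem tsum_sub {H H' : ℕ → Problem} (h : ∀ e, Sub (H e) (H' e)) : Sub (tsum H) (tsum H') := by
  intro x hx
  rw [mem_tsum_dom] at hx
  exact h (x 0) (tail x) hx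

theorem computable_update {α : Type*} [Primcodable α] {k : ℕ → α} (hk : Computable k) (a : ℕ)
    (v : α) : Computable (Function.update k a v) := by
  classical
  have h : Computable (fun n => bif (decide (n = a)) then v else k n) := by
    refine Computable.cond ?_ (Computable.const v) hk
    exact (Primrec.eq.comp Primrec.id (Primrec.const a)).decide.to_comp
  refine h.of_eq fun n => ?_
  by_cases hn : n = a
  · subst hn; simp
  · simp [hn]

theorem computable_modify {α : Type*} [Primcodable α] {k : ℕ → α} (hk : Computable k) (v : ℕ → α)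
    (N : ℕ) : Computable (fun n => if n < N then v n else k n) := by
  induction N with
  | zero => simpa using hk
  | succ N ih =>
    refine (computable_update ih N (v N)).of_eq fun n => ?_
    by_cases h : n = N
    · subst h; simp
    · rw [Function.update_of_ne h]
      by_cases h2 : n < N
      · simp [h2, Nat.lt_succ_of_lt h2]
      · have : ¬ n < N + 1 := by omega
        simp [h2, this]

theorem tsum_le_of_finite {H : ℕ → Problem} {g : Problem} (N : ℕ) (h0 : ∀ e, N ≤ e → H e = zero)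
    (h : ∀ e, H e ≤ g) : tsum H ≤ g := by
  choose v hv using h
  refine tsum_le (fun n => if n < N then v n else (Code.zero, Code.zero))
    (computable_modify (Computable.const _) v N) ?_
  intro e
  by_cases he : e < N
  · simp only [he, if_true]; exact hv e
  · simp only [he, if_false]
    rw [h0 e (by omega)]
    exact red_zero _ _

theorem one_le (c : ℕ) {f g : Problem} (h : f ≤ g) : one c f ≤ g := by
  refine tsum_le_of_finite (c + 1) ?_ ?_
  · intro e he
    rw [if_neg (by omega)]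
  · intro e
    by_cases he : e = c
    · simp [he, h]
    · simp [he, zero_le]

end Pool.Agent.Weih
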