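import Pool.Agent.Weih.Defs

set_option autoImplicit false

namespace Pool.Agent.Weih

open Nat.Partrec (Code)
open Encodable

theorem seg_length (x : ℕ → ℕ) (m : ℕ) : (seg x m).length = m := by
  simp [seg]

theorem seg_take (x : ℕ → ℕ) (m j : ℕ) : (seg x m).take j = seg x (min j m) := by
  simp [seg, ← List.map_take, List.take_range]

theorem seg_getI (x : ℕ → ℕ) {m i : ℕ} (h : i < m) : (seg x m).getI i = x i := by
  have h' : i < (seg x m).length := by rw [seg_length]; exact h
  rw [List.getI_eq_getElem _ h']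
  simp [seg]

theorem App.unique {c : Code} {x y y' : ℕ → ℕ} (h : App c x y) (h' : App c x y') : y = y' := by
  funext n
  have h1 := (h n (y n)).2 rfl
  exact (h' n (y n)).1 h1

theorem exists_code_of_search (T : ℕ → ℕ → List ℕ → Option ℕ)
    (hT : Computable (fun p : (ℕ × List ℕ) × ℕ => T p.2 p.1.1 p.1.2)) :
    ∃ c : Code, ∀ x y : ℕ → ℕ,
      (∀ n, ∃ s m, T s n (seg x m) = some (y n)) →
      (∀ n s m v, T s n (seg x m) = some v → v = y n) → App c x y := by
  have hp : Partrec (fun p : ℕ × List ℕ => Nat.rfindOpt (fun s => T s p.1 p.2)) :=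
    Partrec.rfindOpt (f := fun (p : ℕ × List ℕ) s => T s p.1 p.2) hT
  have hd : Computable (fun p : ℕ =>
      ((p.unpair.1, ((decode (α := List ℕ) p.unpair.2).getD [])) : ℕ × List ℕ)) := by
    refine Computable.pair (Computable.fst.comp Computable.unpair) ?_
    refine Computable.option_getD (Computable.decode.comp (Computable.snd.comp Computable.unpair)) ?_
    exact Computable.const []
  have hq := hp.comp hd
  obtain ⟨c, hc⟩ := Code.exists_code.1 (Partrec.nat_iff.1 hq)
  refine ⟨c, fun x y h1 h2 n v => ?_⟩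
  rw [hc]
  simp only [Nat.unpair_pair, encodek, Option.getD_some]
  constructor
  · rintro ⟨m, hm⟩
    obtain ⟨s, hs⟩ := Nat.rfindOpt_spec hm
    exact h2 n s m v hs
  · rintro rfl
    obtain ⟨s, m, hs⟩ := h1 n
    refine ⟨m, ?_⟩
    have hdom : (Nat.rfindOpt (fun s => T s n (seg x m))).Dom :=
      Nat.rfindOpt_dom.2 ⟨s, y n, hs⟩
    obtain ⟨v, hv⟩ := Part.dom_iff_mem.1 hdom
    obtain ⟨s', hs'⟩ := Nat.rfindOpt_spec hv
    have := h2 n s' m v hs'
    rw [← this]
    exact hv

end Pool.Agent.Weih
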