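import Pool.Agent.Weih.Comp

set_option autoImplicit false

namespace Pool.Agent.Weih

open Nat.Partrec (Code)
open Encodable

/-- check that the finite string `τ` is produced by `c` from the finite string `σ` in `k` steps -/
def okComp (c : Code) (q : (ℕ × List ℕ) × List ℕ) : Prop :=
  ∀ i ∈ List.range q.1.2.length, ∃ j ∈ List.range (q.2.length + 1),
    Code.evaln q.1.1 c (Nat.pair i (encode (q.2.take j))) = some (q.1.2.getI i)

theorem primrecPred_okComp (c : Code) : PrimrecPred (okComp c) := by
  have h1 : PrimrecRel (fun (j : ℕ) (b : ℕ × ((ℕ × List ℕ) × List ℕ)) =>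
      Code.evaln b.2.1.1 c (Nat.pair b.1 (encode (b.2.2.take j))) = some (b.2.1.2.getI b.1)) := by
    apply Primrec.eq.comp
    · refine Code.primrec_evaln.comp (Primrec.pair (Primrec.pair ?_ (Primrec.const c)) ?_)
      · exact Primrec.fst.comp (Primrec.fst.comp (Primrec.snd.comp Primrec.snd))
      · refine Primrec₂.natPair.comp (Primrec.fst.comp Primrec.snd) ?_
        refine Primrec.encode.comp ?_
        exact Primrec.list_take.comp Primrec.fst (Primrec.snd.comp (Primrec.snd.comp Primrec.snd))
    · refine Primrec.option_some.comp ?_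
      exact Primrec.list_getI.comp
        (Primrec.snd.comp (Primrec.fst.comp (Primrec.snd.comp Primrec.snd)))
        (Primrec.fst.comp Primrec.snd)
  have h2 := h1.exists_mem_list
  have h3 : PrimrecRel (fun (i : ℕ) (q : (ℕ × List ℕ) × List ℕ) =>
      ∃ j ∈ List.range (q.2.length + 1),
        Code.evaln q.1.1 c (Nat.pair i (encode (q.2.take j))) = some (q.1.2.getI i)) := by
    refine PrimrecRel.comp₂ (f := fun (i : ℕ) (q : (ℕ × List ℕ) × List ℕ) => List.range (q.2.length + 1))
      (g := fun (i : ℕ) (q : (ℕ × List ℕ) × List ℕ) => (i, q)) h2 ?_ ?_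
    · exact Primrec.list_range.comp (Primrec.succ.comp (Primrec.list_length.comp
        (Primrec.snd.comp Primrec.snd)))
    · exact Primrec.pair Primrec.fst Primrec.snd
  have h4 := h3.forall_mem_list
  exact h4.comp (f := fun (q : (ℕ × List ℕ) × List ℕ) => List.range q.1.2.length)
    (Primrec.list_range.comp (Primrec.list_length.comp (Primrec.snd.comp Primrec.fst))) Primrec.id

theorem App.comp (c d : Code) : ∃ e : Code, ∀ x y z : ℕ → ℕ, App c x y → App d y z → App e x z := by
  classical
  obtain ⟨e, he⟩ := exists_code_of_search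
    (fun s n σ =>
      if okComp c (((decode (α := ℕ × List ℕ) s).getD (0, [])), σ) then
        Code.evaln ((decode (α := ℕ × List ℕ) s).getD (0, [])).1 d
          (Nat.pair n (encode ((decode (α := ℕ × List ℕ) s).getD (0, [])).2))
      else none) (by
        have hdec : Primrec (fun p : (ℕ × List ℕ) × ℕ =>
            (decode (α := ℕ × List ℕ) p.2).getD (0, [])) :=
          Primrec.option_getD.comp (Primrec.decode.comp Primrec.snd) (Primrec.const _)
        refine Primrec.to_comp (Primrec.ite ?_ ?_ (Primrec.const none))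
        · exact (primrecPred_okComp c).comp (Primrec.pair hdec (Primrec.snd.comp Primrec.fst))
        · refine Code.primrec_evaln.comp (Primrec.pair (Primrec.pair (Primrec.fst.comp hdec)
            (Primrec.const d)) ?_)
          exact Primrec₂.natPair.comp (Primrec.fst.comp Primrec.fst)
            (Primrec.encode.comp (Primrec.snd.comp hdec)))
  refine ⟨e, fun x y z hxy hyz => he x z ?_ ?_⟩
  · intro n
    obtain ⟨l, hl⟩ := (hyz n (z n)).2 rfl
    obtain ⟨k0, hk0⟩ := Code.evaln_complete.1 hl
    have hex : ∀ i, ∃ m k, y i ∈ Code.evaln k c (Nat.pair i (encode (seg x m))) := by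
      intro i
      obtain ⟨m, hm⟩ := (hxy i (y i)).2 rfl
      obtain ⟨k, hk⟩ := Code.evaln_complete.1 hm
      exact ⟨m, k, hk⟩
    choose mm kk hmk using hex
    obtain ⟨M, hM⟩ : ∃ M, ∀ i < l, mm i ≤ M := by
      refine ⟨(Finset.range l).sup mm, fun i hi => Finset.le_sup (f := mm) (Finset.mem_range.2 hi)⟩
    obtain ⟨K, hK⟩ : ∃ K, ∀ i < l, kk i ≤ K := by
      refine ⟨(Finset.range l).sup kk, fun i hi => Finset.le_sup (f := kk) (Finset.mem_range.2 hi)⟩
    refine ⟨encode ((max K k0, seg y l) : ℕ × List ℕ), M, ?_⟩
    have hok : okComp c ((max K k0, seg y l), seg x M) := by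
      intro i hi
      rw [List.mem_range, seg_length] at hi
      refine ⟨mm i, ?_, ?_⟩
      · rw [List.mem_range, seg_length]
        exact Nat.lt_succ_of_le (hM i hi)
      · rw [seg_take, min_eq_left (hM i hi), seg_getI y hi]
        exact Code.evaln_mono (le_trans (hK i hi) (le_max_left _ _)) (hmk i)
    simp only [encodek, Option.getD_some, hok, if_true]
    exact Code.evaln_mono (le_max_right _ _) hk0
  · intro n s m v hv
    set q := ((decode (α := ℕ × List ℕ) s).getD (0, [])) with hq
    by_cases hok : okComp c (q, seg x m)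
    · simp only [hok, if_true] at hv
      have hτ : q.2 = seg y q.2.length := by
        apply List.ext_getElem
        · rw [seg_length]
        · intro i h1 h2
          obtain ⟨j, hj, hj'⟩ := hok i (List.mem_range.2 h1)
          rw [seg_take] at hj'
          have h3 := (hxy i _).1 ⟨_, Code.evaln_sound hj'⟩
          rw [List.getI_eq_getElem _ h1] at h3
          rw [h3]
          simp [seg]
      rw [hτ] at hv
      exact (hyz n v).1 ⟨_, Code.evaln_sound hv⟩
    · simp [hok] at hv

end Pool.Agent.Weih
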