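import Pool.Agent.Weih.Comp2

set_option autoImplicit false

namespace Pool.Agent.Weih

open Nat.Partrec (Code)
open Encodable

/-- put the number `e` in front of `x` -/
def cons (e : ℕ) (x : ℕ → ℕ) : ℕ → ℕ
  | 0 => e
  | n + 1 => x n

/-- delete the first entry -/
def tail (x : ℕ → ℕ) : ℕ → ℕ := fun n => x (n + 1)

@[simp] theorem cons_zero (e : ℕ) (x : ℕ → ℕ) : cons e x 0 = e := rfl
@[simp] theorem cons_succ (e : ℕ) (x : ℕ → ℕ) (n : ℕ) : cons e x (n + 1) = x n := rfl
@[simp] theorem tail_cons (e : ℕ) (x : ℕ → ℕ) : tail (cons e x) = x := rfl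
theorem cons_tail (x : ℕ → ℕ) : cons (x 0) (tail x) = x := by
  funext n; cases n <;> rfl

theorem seg_cons (e : ℕ) (x : ℕ → ℕ) (m : ℕ) : seg (cons e x) (m + 1) = e :: seg x m := by
  simp [seg, List.range_succ_eq_map, List.map_map, Function.comp_def]

theorem exists_code_of_use (U : ℕ → ℕ) (G : ℕ → List ℕ → ℕ) (hU : Primrec U) (hG : Primrec₂ G) :
    ∃ c : Code, ∀ x : ℕ → ℕ, App c x (fun n => G n (seg x (U n))) := by
  obtain ⟨c, hc⟩ := exists_code_of_search
    (fun _ n σ => if U n ≤ σ.length then some (G n (σ.take (U n))) else none) (by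
      refine Primrec.to_comp (Primrec.ite ?_ ?_ (Primrec.const none))
      · exact Primrec.nat_le.comp (hU.comp (Primrec.fst.comp Primrec.fst))
          (Primrec.list_length.comp (Primrec.snd.comp Primrec.fst))
      · refine Primrec.option_some.comp (hG.comp (Primrec.fst.comp Primrec.fst) ?_)
        exact Primrec.list_take.comp (hU.comp (Primrec.fst.comp Primrec.fst))
          (Primrec.snd.comp Primrec.fst))
  refine ⟨c, fun x => hc x _ ?_ ?_⟩
  · intro n
    refine ⟨0, U n, ?_⟩
    simp [seg_length, seg_take]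
  · intro n s m v hv
    simp only [seg_length, seg_take] at hv
    split_ifs at hv with h
    · rw [min_eq_left h] at hv
      exact (Option.some.inj hv).symm

/-- the functional `x ↦ (n ↦ x (h n))` -/
theorem exists_code_lookup (h : ℕ → ℕ) (hh : Primrec h) :
    ∃ c : Code, ∀ x : ℕ → ℕ, App c x (fun n => x (h n)) := by
  obtain ⟨c, hc⟩ := exists_code_of_use (fun n => h n + 1) (fun n σ => σ.getI (h n))
    (Primrec.succ.comp hh) (Primrec.list_getI.comp Primrec.snd (hh.comp Primrec.fst))
  refine ⟨c, fun x => ?_⟩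
  have := hc x
  simpa [seg_getI] using this

theorem exists_code_id : ∃ c : Code, ∀ x : ℕ → ℕ, App c x x :=
  exists_code_lookup (fun n => n) Primrec.id

theorem exists_code_tail : ∃ c : Code, ∀ x : ℕ → ℕ, App c x (tail x) :=
  exists_code_lookup (fun n => n + 1) Primrec.succ

theorem exists_code_cons (e : ℕ) : ∃ c : Code, ∀ x : ℕ → ℕ, App c x (cons e x) := by
  obtain ⟨c, hc⟩ := exists_code_of_use (fun n => n)
    (fun n σ => if n = 0 then e else σ.getI (n - 1)) Primrec.id (by
      refine Primrec.ite ?_ (Primrec.const e) ?_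
      · exact Primrec.eq.comp Primrec.fst (Primrec.const 0)
      · exact Primrec.list_getI.comp Primrec.snd (Primrec.pred.comp Primrec.fst))
  refine ⟨c, fun x => ?_⟩
  have := hc x
  convert this using 1
  funext n
  cases n with
  | zero => simp
  | succ n => simp [seg_getI]

theorem join_even (x y : ℕ → ℕ) (n : ℕ) : join x y (2 * n) = x n := by
  simp [join]

theorem join_odd (x y : ℕ → ℕ) (n : ℕ) : join x y (2 * n + 1) = y n := by
  have h1 : (2 * n + 1) % 2 = 1 := by omega
  have h2 : (2 * n + 1) / 2 = n := by omega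
  simp [join, h1, h2]

theorem exists_code_fst : ∃ c : Code, ∀ x y : ℕ → ℕ, App c (join x y) x := by
  obtain ⟨c, hc⟩ := exists_code_lookup (fun n => 2 * n)
    (Primrec.nat_mul.comp (Primrec.const 2) Primrec.id)
  refine ⟨c, fun x y => ?_⟩
  have := hc (join x y)
  simpa [join_even] using this

theorem exists_code_snd : ∃ c : Code, ∀ x y : ℕ → ℕ, App c (join x y) y := by
  obtain ⟨c, hc⟩ := exists_code_lookup (fun n => 2 * n + 1)
    (Primrec.succ.comp (Primrec.nat_mul.comp (Primrec.const 2) Primrec.id))
  refine ⟨c, fun x y => ?_⟩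
  have := hc (join x y)
  simpa [join_odd] using this

/-- the functional `⟨e⌢x, y⟩ ↦ e⌢⟨x, y⟩` -/
theorem exists_code_shift :
    ∃ c : Code, ∀ (e : ℕ) (x y : ℕ → ℕ), App c (join (cons e x) y) (cons e (join x y)) := by
  obtain ⟨c, hc⟩ := exists_code_lookup
    (fun n => if n = 0 then 0 else if n % 2 = 1 then n + 1 else n - 1) (by
      refine Primrec.ite (Primrec.eq.comp Primrec.id (Primrec.const 0)) (Primrec.const 0) ?_
      refine Primrec.ite (Primrec.eq.comp (Primrec.nat_mod.comp Primrec.id (Primrec.const 2))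
        (Primrec.const 1)) Primrec.succ Primrec.pred)
  refine ⟨c, fun e x y => ?_⟩
  have := hc (join (cons e x) y)
  convert this using 1
  funext n
  cases n with
  | zero => simp [join]
  | succ n =>
    simp only [cons_succ, Nat.succ_ne_zero, if_false]
    rcases Nat.even_or_odd' n with ⟨k, rfl | rfl⟩
    · have h1 : (2 * k + 1) % 2 = 1 := by omega
      rw [if_pos h1, join_even]
      have h2 : 2 * k + 1 + 1 = 2 * (k + 1) := by ring
      rw [h2, join_even]
      rfl
    · have h1 : ¬ (2 * k + 1 + 1) % 2 = 1 := by omega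
      rw [if_neg h1, join_odd]
      have h2 : 2 * k + 1 + 1 - 1 = 2 * k + 1 := by omega
      rw [h2, join_odd]

theorem exists_code_join (c d : Code) :
    ∃ e : Code, ∀ x y z : ℕ → ℕ, App c x y → App d x z → App e x (join y z) := by
  obtain ⟨e, he⟩ := exists_code_of_search
    (fun s n σ => if n % 2 = 0 then Code.evaln s c (Nat.pair (n / 2) (encode σ))
      else Code.evaln s d (Nat.pair (n / 2) (encode σ))) (by
      have h0 : Primrec (fun p : (ℕ × List ℕ) × ℕ => Nat.pair (p.1.1 / 2) (encode p.1.2)) := by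
        refine Primrec₂.natPair.comp ?_ ?_
        · exact Primrec.nat_div.comp (Primrec.fst.comp Primrec.fst) (Primrec.const 2)
        · exact Primrec.encode.comp (Primrec.snd.comp Primrec.fst)
      refine Primrec.to_comp (Primrec.ite ?_ ?_ ?_)
      · exact Primrec.eq.comp (Primrec.nat_mod.comp (Primrec.fst.comp Primrec.fst)
          (Primrec.const 2)) (Primrec.const 0)
      · exact Code.primrec_evaln.comp (Primrec.pair (Primrec.pair Primrec.snd (Primrec.const c)) h0)
      · exact Code.primrec_evaln.comp (Primrec.pair (Primrec.pair Primrec.snd (Primrec.const d)) h0))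
  refine ⟨e, fun x y z hc hd => he x _ ?_ ?_⟩
  · intro n
    by_cases h : n % 2 = 0
    · obtain ⟨m, hm⟩ := (hc (n / 2) (y (n / 2))).2 rfl
      obtain ⟨s, hs⟩ := Code.evaln_complete.1 hm
      refine ⟨s, m, ?_⟩
      simp only [h, if_true, join]
      exact hs
    · obtain ⟨m, hm⟩ := (hd (n / 2) (z (n / 2))).2 rfl
      obtain ⟨s, hs⟩ := Code.evaln_complete.1 hm
      refine ⟨s, m, ?_⟩
      simp only [h, if_false, join]
      exact hs
  · intro n s m v hv
    by_cases h : n % 2 = 0
    · simp only [h, if_true, join] at hv ⊢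
      exact (hc _ v).1 ⟨m, Code.evaln_sound hv⟩
    · simp only [h, if_false, join] at hv ⊢
      exact (hd _ v).1 ⟨m, Code.evaln_sound hv⟩

theorem primrec_headtail : Primrec (fun σ : List ℕ => σ.head?.map (fun e => (e, σ.tail))) :=
  Primrec.option_map Primrec.list_head? (Primrec.pair Primrec.snd
    (Primrec.list_tail.comp Primrec.fst))

theorem natPair_computable₂ : Computable₂ Nat.pair := Primrec₂.natPair.to_comp

theorem encodeList_computable : Computable (fun l : List ℕ => encode l) := Computable.encode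

theorem evaln_computable :
    Computable fun a : (ℕ × Code) × ℕ => Code.evaln a.1.1 a.1.2 a.2 :=
  Code.primrec_evaln.to_comp

theorem evaln_comp {α : Type*} [Primcodable α] {f : α → ℕ} {g : α → Code} {h : α → ℕ}
    (hf : Computable f) (hg : Computable g) (hh : Computable h) :
    Computable fun a : α => Code.evaln (f a) (g a) (h a) :=
  evaln_computable.comp ((hf.pair hg).pair hh)

theorem univ_aux1 : Computable (fun q : ((ℕ × List ℕ) × ℕ) × (ℕ × List ℕ) =>
    encode q.2.2) := encodeList_computable.comp (Computable.snd.comp Computable.snd)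

theorem univ_aux2 : Computable (fun q : ((ℕ × List ℕ) × ℕ) × (ℕ × List ℕ) =>
    q.1.1.1) := (Computable.fst.comp (Computable.fst.comp Computable.fst))

theorem univ_aux3 : Computable (fun q : ((ℕ × List ℕ) × ℕ) × (ℕ × List ℕ) =>
    Nat.pair q.1.1.1 (encode q.2.2)) := natPair_computable₂.comp univ_aux2 univ_aux1

theorem univ_aux5 (k : ℕ → Code) (hk : Computable k) :
    Computable (fun q : ((ℕ × List ℕ) × ℕ) × (ℕ × List ℕ) =>
      Code.evaln q.1.2 (k q.2.1) (Nat.pair q.1.1.1 (encode q.2.2))) :=
  evaln_comp (Computable.snd.comp Computable.fst)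
    (hk.comp (Computable.fst.comp Computable.snd)) univ_aux3

theorem univ_aux6 : Computable (fun p : (ℕ × List ℕ) × ℕ =>
    p.1.2.head?.map (fun e => (e, p.1.2.tail))) :=
  primrec_headtail.to_comp.comp (Computable.snd.comp Computable.fst)

/-- universal functional -/
theorem exists_code_univ (k : ℕ → Code) (hk : Computable k) :
    ∃ c : Code, ∀ (e : ℕ) (x y : ℕ → ℕ), App (k e) x y → App c (cons e x) y := by
  obtain ⟨c, hc⟩ := exists_code_of_search
    (fun s n σ => Option.bind (σ.head?.map (fun e => (e, σ.tail)))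
      (fun r => Code.evaln s (k r.1) (Nat.pair n (encode r.2))))
    (Computable.option_bind univ_aux6 (univ_aux5 k hk).to₂)
  refine ⟨c, fun e x y h => hc _ _ ?_ ?_⟩
  · intro n
    obtain ⟨m, hm⟩ := (h n (y n)).2 rfl
    obtain ⟨s, hs⟩ := Code.evaln_complete.1 hm
    refine ⟨s, m + 1, ?_⟩
    rw [seg_cons]
    exact hs
  · intro n s m v hv
    cases m with
    | zero => simp [seg] at hv
    | succ m =>
      rw [seg_cons] at hv
      exact (h n v).1 ⟨m, Code.evaln_sound hv⟩

end Pool.Agent.Weih
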