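import Pool.Agent.Weih.Comp3

set_option autoImplicit false

namespace Pool.Agent.Weih

open Nat.Partrec (Code)
open Encodable

theorem exists_code_merge :
    ∃ c : Code, ∀ (a b : ℕ) (x : ℕ → ℕ), App c (cons a (cons b x)) (cons (Nat.pair a b) x) := by
  obtain ⟨c, hc⟩ := exists_code_of_use (fun n => n + 2)
    (fun n σ => if n = 0 then Nat.pair (σ.getI 0) (σ.getI 1) else σ.getI (n + 1))
    (Primrec.succ.comp Primrec.succ) (by
      refine Primrec.ite (Primrec.eq.comp Primrec.fst (Primrec.const 0)) ?_ ?_
      · exact Primrec₂.natPair.comp (Primrec.list_getI.comp Primrec.snd (Primrec.const 0))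
          (Primrec.list_getI.comp Primrec.snd (Primrec.const 1))
      · exact Primrec.list_getI.comp Primrec.snd (Primrec.succ.comp Primrec.fst))
  refine ⟨c, fun a b x => ?_⟩
  have := hc (cons a (cons b x))
  convert this using 1
  funext n
  cases n with
  | zero =>
    rw [if_pos rfl, seg_getI _ (by omega), seg_getI _ (by omega)]
    rfl
  | succ n =>
    rw [if_neg (Nat.succ_ne_zero n), seg_getI _ (by omega)]
    rfl

theorem exists_code_split :
    ∃ c : Code, ∀ (a b : ℕ) (x : ℕ → ℕ), App c (cons (Nat.pair a b) x) (cons a (cons b x)) := by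
  obtain ⟨c, hc⟩ := exists_code_of_use (fun n => n + 1)
    (fun n σ => if n = 0 then (σ.getI 0).unpair.1 else
      if n = 1 then (σ.getI 0).unpair.2 else σ.getI (n - 1))
    Primrec.succ (by
      have h0 : Primrec (fun p : ℕ × List ℕ => p.2.getI 0) :=
        Primrec.list_getI.comp Primrec.snd (Primrec.const 0)
      refine Primrec.ite (Primrec.eq.comp Primrec.fst (Primrec.const 0)) ?_ ?_
      · exact Primrec.fst.comp (Primrec.unpair.comp h0)
      · refine Primrec.ite (Primrec.eq.comp Primrec.fst (Primrec.const 1)) ?_ ?_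
        · exact Primrec.snd.comp (Primrec.unpair.comp h0)
        · exact Primrec.list_getI.comp Primrec.snd (Primrec.pred.comp Primrec.fst))
  refine ⟨c, fun a b x => ?_⟩
  have := hc (cons (Nat.pair a b) x)
  convert this using 1
  funext n
  rcases n with _ | _ | n
  · rw [if_pos rfl, seg_getI _ (by omega)]
    simp
  · rw [if_neg (by omega), if_pos rfl, seg_getI _ (by omega)]
    simp
  · rw [if_neg (by omega), if_neg (by omega), seg_getI _ (by omega)]
    rfl

theorem exists_code_decide (σ : List ℕ) :
    ∃ c : Code, ∀ x : ℕ → ℕ, App c x (cons (if seg x σ.length = σ then 0 else 1) x) := by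
  obtain ⟨c, hc⟩ := exists_code_of_use (fun n => n + σ.length)
    (fun n τ => if n = 0 then (if τ.take σ.length = σ then 0 else 1) else τ.getI (n - 1))
    (Primrec.nat_add.comp Primrec.id (Primrec.const _)) (by
      refine Primrec.ite (Primrec.eq.comp Primrec.fst (Primrec.const 0)) ?_ ?_
      · refine Primrec.ite ?_ (Primrec.const 0) (Primrec.const 1)
        exact Primrec.eq.comp (Primrec.list_take.comp (Primrec.const _) Primrec.snd)
          (Primrec.const σ)
      · exact Primrec.list_getI.comp Primrec.snd (Primrec.pred.comp Primrec.fst))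
  refine ⟨c, fun x => ?_⟩
  have := hc x
  convert this using 1
  funext n
  cases n with
  | zero =>
    rw [if_pos rfl, seg_take, cons_zero]
    simp
  | succ n =>
    rw [if_neg (Nat.succ_ne_zero n), seg_getI _ (by omega)]
    rfl

/-- composition and pairing in one go -/
theorem exists_code_const_join : ∃ c : Code, ∀ x y : ℕ → ℕ, App c (join x y) (join x y) :=
  let ⟨c, hc⟩ := exists_code_id
  ⟨c, fun _ _ => hc _⟩

end Pool.Agent.Weih
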