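import Pool.Agent.Weih.Interp

set_option autoImplicit false

namespace Pool.Agent.Weih

open Nat.Partrec (Code)
open Encodable

/-- any two elements are comparable -/
def Chn (L : Set Problem) : Prop := ∀ f ∈ L, ∀ g ∈ L, f ≤ g ∨ g ≤ f

theorem exists_monotone_seq {L : Set Problem} (hL : Chn L) (u : ℕ → Problem) (hu : ∀ n, u n ∈ L) :
    ∃ a : ℕ → Problem, Monotone a ∧ (∀ n, a n ∈ L) ∧ ∀ n, u n ≤ a n := by
  classical
  have key : ∀ (x : L) (n : ℕ), ∃ y : L, x.1 ≤ y.1 ∧ u n ≤ y.1 := by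
    intro x n
    rcases hL x.1 x.2 (u n) (hu n) with h | h
    · exact ⟨⟨u n, hu n⟩, h, le_rfl⟩
    · exact ⟨x, le_rfl, h⟩
  choose nx hnx1 hnx2 using key
  let s : ℕ → L := fun n => Nat.rec (⟨u 0, hu 0⟩ : L) (fun n x => nx x (n + 1)) n
  refine ⟨fun n => (s n).1, monotone_nat_of_le_succ fun n => hnx1 (s n) (n + 1), fun n => (s n).2, ?_⟩
  intro n
  cases n with
  | zero => exact le_rfl
  | succ n => exact hnx2 (s n) (n + 1)

theorem exists_antitone_seq {L : Set Problem} (hL : Chn L) (u : ℕ → Problem) (hu : ∀ n, u n ∈ L) :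
    ∃ a : ℕ → Problem, Antitone a ∧ (∀ n, a n ∈ L) ∧ ∀ n, a n ≤ u n := by
  classical
  have key : ∀ (x : L) (n : ℕ), ∃ y : L, y.1 ≤ x.1 ∧ y.1 ≤ u n := by
    intro x n
    rcases hL x.1 x.2 (u n) (hu n) with h | h
    · exact ⟨x, le_rfl, h⟩
    · exact ⟨⟨u n, hu n⟩, h, le_rfl⟩
  choose nx hnx1 hnx2 using key
  let s : ℕ → L := fun n => Nat.rec (⟨u 0, hu 0⟩ : L) (fun n x => nx x (n + 1)) n
  refine ⟨fun n => (s n).1, antitone_nat_of_succ_le fun n => hnx1 (s n) (n + 1), fun n => (s n).2, ?_⟩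
  intro n
  cases n with
  | zero => exact le_rfl
  | succ n => exact hnx2 (s n) (n + 1)

theorem dichotomy_left {L : Set Problem} (hL : Chn L) (h : Problem) :
    (∃ k : Code × Code, ∀ f ∈ L, ∃ f' ∈ L, f ≤ f' ∧ Red k f' h) ∨
    ((∀ f ∈ L, f ≤ h) → ∃ a : ℕ → Problem, Monotone a ∧ (∀ n, a n ∈ L) ∧ ∀ f ∈ L, ∃ n, f ≤ a n) := by
  by_cases hc : ∃ k : Code × Code, ∀ f ∈ L, ∃ f' ∈ L, f ≤ f' ∧ Red k f' h
  · exact Or.inl hc
  · right
    intro hh
    push Not at hc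
    choose u hu hu' using hc
    obtain ⟨e, he⟩ := exists_surjective_nat (Code × Code)
    obtain ⟨a, ha, haL, hua⟩ := exists_monotone_seq hL (fun n => u (e n)) (fun n => hu (e n))
    refine ⟨a, ha, haL, fun f hf => ?_⟩
    obtain ⟨k, hk⟩ := le_def.1 (hh f hf)
    obtain ⟨n, rfl⟩ := he k
    refine ⟨n, ?_⟩
    have h1 : ¬ u (e n) ≤ f := fun hle => hu' (e n) f hf hle hk
    rcases hL f hf _ (hu (e n)) with h2 | h2
    · exact h2.trans (hua n)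
    · exact absurd h2 h1

theorem dichotomy_right {R : Set Problem} (hR : Chn R) (h : Problem) :
    (∃ k : Code × Code, ∀ f ∈ R, ∃ f' ∈ R, f' ≤ f ∧ Red k h f') ∨
    ((∀ f ∈ R, h ≤ f) → ∃ b : ℕ → Problem, Antitone b ∧ (∀ n, b n ∈ R) ∧ ∀ f ∈ R, ∃ n, b n ≤ f) := by
  by_cases hc : ∃ k : Code × Code, ∀ f ∈ R, ∃ f' ∈ R, f' ≤ f ∧ Red k h f'
  · exact Or.inl hc
  · right
    intro hh
    push Not at hc
    choose u hu hu' using hc
    obtain ⟨e, he⟩ := exists_surjective_nat (Code × Code)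
    obtain ⟨a, ha, haL, hua⟩ := exists_antitone_seq hR (fun n => u (e n)) (fun n => hu (e n))
    refine ⟨a, ha, haL, fun f hf => ?_⟩
    obtain ⟨k, hk⟩ := le_def.1 (hh f hf)
    obtain ⟨n, rfl⟩ := he k
    refine ⟨n, ?_⟩
    have h1 : ¬ f ≤ u (e n) := fun hle => hu' (e n) f hf hle hk
    rcases hR f hf _ (hu (e n)) with h2 | h2
    · exact absurd h2 h1
    · exact (hua n).trans h2

/-- closure properties of a class of problems -/
structure Cl (G : Set Problem) : Prop where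
  zero : zero ∈ G
  sup : ∀ A ⊆ G, supFam A ∈ G
  inf : ∀ A ⊆ G, A.Nonempty → infFam A ∈ G
  tsum : ∀ H : ℕ → Problem, (∀ e, H e ∈ G) → ∃ g ∈ G, g ≤ tsum H ∧ tsum H ≤ g

/-- A cut of `G` that is filled by some problem is filled by an element of `G`. -/
theorem fill {G : Set Problem} (hG : Cl G) {L R : Set Problem} (hLG : L ⊆ G) (hRG : R ⊆ G)
    (hL : Chn L) (hR : Chn R) (hRne : R.Nonempty)
    (hsmall : ∀ b ∈ R, ∀ w ∈ b.dom, ∃ q ∈ G, Sub q b ∧ w ∈ q.dom ∧ q.sol w ⊆ b.sol w ∧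
      ∃ l ∈ L, q ≤ l)
    {h : Problem} (hLh : ∀ f ∈ L, f ≤ h ∧ ¬ h ≤ f) (hRh : ∀ g ∈ R, h ≤ g ∧ ¬ g ≤ h) :
    ∃ g ∈ G, (∀ f ∈ L, f ≤ g ∧ ¬ g ≤ f) ∧ (∀ f ∈ R, g ≤ f ∧ ¬ f ≤ g) := by
  -- left side
  have hleft : (∃ g ∈ G, (∀ f ∈ L, f ≤ g ∧ ¬ g ≤ f) ∧ (∀ f ∈ R, g ≤ f ∧ ¬ f ≤ g)) ∨
      ∃ a : ℕ → Problem, Monotone a ∧ (∀ n, a n ∈ L) ∧ ∀ f ∈ L, ∃ n, f ≤ a n := by
    rcases dichotomy_left hL h with ⟨k, hk⟩ | hseq
    · set A : Set Problem := {f | f ∈ L ∧ Red k f h} with hA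
      have hAred : ∀ f ∈ A, Red k f h := fun f hf => hf.2
      have hF : supFam A ≤ h := (supFam_red hAred).le
      have hLF : ∀ f ∈ L, f ≤ supFam A := by
        intro f hf
        obtain ⟨f', hf', hle, hr⟩ := hk f hf
        exact hle.trans (sub_supFam hAred (show f' ∈ A from ⟨hf', hr⟩)).le
      by_cases hmax : ∃ f ∈ L, supFam A ≤ f
      · obtain ⟨f, hf, hle⟩ := hmax
        exact Or.inr ⟨fun _ => f, monotone_const, fun _ => hf, fun g hg => ⟨0, (hLF g hg).trans hle⟩⟩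
      · push Not at hmax
        refine Or.inl ⟨supFam A, hG.sup A (fun f hf => hLG hf.1), fun f hf => ⟨hLF f hf, hmax f hf⟩, ?_⟩
        intro g hg
        exact ⟨hF.trans (hRh g hg).1, fun hle => (hRh g hg).2 (hle.trans hF)⟩
    · exact Or.inr (hseq fun f hf => (hLh f hf).1)
  have hright : (∃ g ∈ G, (∀ f ∈ L, f ≤ g ∧ ¬ g ≤ f) ∧ (∀ f ∈ R, g ≤ f ∧ ¬ f ≤ g)) ∨
      ∃ b : ℕ → Problem, Antitone b ∧ (∀ n, b n ∈ R) ∧ ∀ f ∈ R, ∃ n, b n ≤ f := by
    rcases dichotomy_right hR h with ⟨k, hk⟩ | hseq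
    · set A : Set Problem := {f | f ∈ R ∧ Red k h f} with hA
      have hAne : A.Nonempty := by
        obtain ⟨g, hg⟩ := hRne
        obtain ⟨g', hg', -, hr⟩ := hk g hg
        exact ⟨g', hg', hr⟩
      have hAred : ∀ f ∈ A, Red k h f := fun f hf => hf.2
      have hF : h ≤ infFam A := (red_infFam hAne hAred).le
      have hLF : ∀ f ∈ R, infFam A ≤ f := by
        intro f hf
        obtain ⟨f', hf', hle, hr⟩ := hk f hf
        exact (infFam_sub (show f' ∈ A from ⟨hf', hr⟩)).le.trans hle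
      by_cases hmax : ∃ f ∈ R, f ≤ infFam A
      · obtain ⟨f, hf, hle⟩ := hmax
        exact Or.inr ⟨fun _ => f, antitone_const, fun _ => hf, fun g hg => ⟨0, hle.trans (hLF g hg)⟩⟩
      · push Not at hmax
        refine Or.inl ⟨infFam A, hG.inf A (fun f hf => hRG hf.1) hAne, ?_,
          fun f hf => ⟨hLF f hf, hmax f hf⟩⟩
        intro g hg
        exact ⟨(hLh g hg).1.trans hF, fun hle => (hLh g hg).2 (hF.trans hle)⟩
    · exact Or.inr (hseq fun f hf => (hRh f hf).1)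
  rcases hleft with hdone | ⟨a, ha, haL, hacof⟩
  · exact hdone
  rcases hright with hdone | ⟨b, hb, hbR, hbcof⟩
  · exact hdone
  have hab : ∀ i j, a i ≤ b j := fun i j => (hLh _ (haL i)).1.trans (hRh _ (hbR j)).1
  have hnba : ∀ i j, ¬ b j ≤ a i := fun i j hle => (hRh _ (hbR j)).2 (hle.trans (hLh _ (haL i)).1)
  obtain ⟨H, hHG, h1, h2, h3, h4⟩ := interpolation (P := G) hab hnba ha hb
    (fun i => hLG (haL i)) hG.zero (by
      intro j w hw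
      obtain ⟨q, hqG, hqs, hqd, hqw, l, hl, hql⟩ := hsmall (b j) (hbR j) w hw
      obtain ⟨n, hn⟩ := hacof l hl
      exact ⟨q, hqG, hqs, hqd, hqw, n, hql.trans hn⟩)
  obtain ⟨g, hgG, hg1, hg2⟩ := hG.tsum H hHG
  refine ⟨g, hgG, ?_, ?_⟩
  · intro f hf
    obtain ⟨n, hn⟩ := hacof f hf
    exact ⟨hn.trans ((h1 n).trans hg2), fun hle => h3 n (hg2.trans (hle.trans hn))⟩
  · intro f hf
    obtain ⟨n, hn⟩ := hbcof f hf
    exact ⟨hg1.trans ((h2 n).trans hn), fun hle => h4 n (hn.trans (hle.trans hg1))⟩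

end Pool.Agent.Weih
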