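import Mathlib

/-!
# Weihrauch degrees: definitions

Baire space is `ℕ → ℕ`. Functionals on Baire space are given by programs acting on
finite initial segments of the input.
-/

set_option autoImplicit false

namespace Pool.Agent.Weih

open Nat.Partrec (Code)

/-- The initial segment `x(0), ..., x(m-1)` of a point `x` of Baire space. -/
def seg (x : ℕ → ℕ) (m : ℕ) : List ℕ := (List.range m).map x

/-- `App c x y`: the computable functional with index `c` is defined at `x` with value `y`.
The program `c` is fed an argument `n` together with (the code of) a finite initial segment of `x`;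
for every `n`, the values it outputs on the various initial segments of `x` are exactly `y n`. -/
def App (c : Code) (x y : ℕ → ℕ) : Prop :=
  ∀ n v : ℕ, (∃ m : ℕ, v ∈ c.eval (Nat.pair n (Encodable.encode (seg x m)))) ↔ v = y n

/-- The pair `⟨x, y⟩` of two points of Baire space: `x` on even, `y` on odd arguments. -/
def join (x y : ℕ → ℕ) : ℕ → ℕ := fun n => if n % 2 = 0 then x (n / 2) else y (n / 2)

/-- A problem `f :⊆ ω^ω ⇉ ω^ω`; `f x` is the set of solutions of `x`, and `x` is in the domain of
`f` iff `f x` is nonempty. -/
structure Problem where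
  /-- the set of solutions of an instance -/
  sol : (ℕ → ℕ) → Set (ℕ → ℕ)

/-- The domain of a problem. -/
def Problem.dom (f : Problem) : Set (ℕ → ℕ) := {x | (f.sol x).Nonempty}

/-- Weihrauch reducibility of `f` to `g` with indices `k = (Φ, Ψ)`: for every `x ∈ dom f` the
value `z = Φ(x)` is defined and in `dom g`, and for every `y ∈ g(z)` the value `Ψ(⟨x, y⟩)` is
defined and in `f(x)`. -/
def Red (k : Code × Code) (f g : Problem) : Prop :=
  ∀ x ∈ f.dom, ∃ z ∈ g.dom, App k.1 x z ∧ ∀ y ∈ g.sol z, ∃ w ∈ f.sol x, App k.2 (join x y) w

/-- Weihrauch reducibility `f ≤_W g`. -/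
def WLe (f g : Problem) : Prop := ∃ k : Code × Code, Red k f g

end Pool.Agent.Weih
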