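import Pool.Agent.Weih.Lower2

set_option autoImplicit false

namespace Pool.Agent.Weih

open Cardinal

/-- the degree of a problem -/
def deg (f : Problem) : Degree := toAntisymmetrization (· ≤ ·) f

theorem deg_le {f g : Problem} : deg f ≤ deg g ↔ f ≤ g := Iff.rfl

theorem deg_lt {f g : Problem} : deg f < deg g ↔ f ≤ g ∧ ¬ g ≤ f := by
  rw [lt_iff_le_not_ge, deg_le, deg_le]

theorem deg_surj (d : Degree) : ∃ f, deg f = d :=
  ⟨ofAntisymmetrization _ d, toAntisymmetrization_ofAntisymmetrization _ d⟩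

theorem deg_eq {f g : Problem} (h1 : f ≤ g) (h2 : g ≤ f) : deg f = deg g :=
  le_antisymm (deg_le.2 h1) (deg_le.2 h2)

theorem upper_card {C : Set Problem} (hCQ : C ⊆ {h | h ∈ GW ∧ dd Set.univ ≤ h}) (hCch : Chn C)
    (hCmax : ∀ h ∈ {h | h ∈ GW ∧ dd Set.univ ≤ h}, (∀ c ∈ C, h ≤ c ∨ c ≤ h) → h ∈ C) :
    𝔠 ≤ #(deg '' C) := by
  classical
  let _ : LinearOrder (deg '' C) :=
    { (inferInstance : PartialOrder (deg '' C)) with
      le_total := by
        rintro ⟨_, f, hf, rfl⟩ ⟨_, g, hg, rfl⟩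
        exact hCch f hf g hg
      toDecidableLE := Classical.decRel _ }
  have hlt : ∀ x y : (deg '' C), x < y ↔ x.1 < y.1 := fun x y => Iff.rfl
  have _ : DenselyOrdered (deg '' C) := by
    refine ⟨?_⟩
    rintro ⟨_, f, hf, rfl⟩ ⟨_, g, hg, rfl⟩ hfg
    obtain ⟨h1, h2⟩ := deg_lt.1 hfg
    obtain ⟨c, hc, h3, h4⟩ := upper_cut hCQ hCch hCmax (a := fun _ => f) (b := fun _ => g)
      (fun _ => hf) (fun _ => hg) monotone_const antitone_const (fun _ _ => h1) (fun _ _ => h2)
    exact ⟨⟨deg c, c, hc, rfl⟩, deg_lt.2 (h3 0), deg_lt.2 (h4 0)⟩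
  have _ : Nontrivial (deg '' C) := by
    obtain ⟨f, hf, g, hg, hgf⟩ := upper_nontrivial hCQ hCmax
    refine ⟨⟨deg f, f, hf, rfl⟩, ⟨deg g, g, hg, rfl⟩, ?_⟩
    intro h
    exact hgf (deg_le.1 (le_of_eq (congrArg Subtype.val h).symm))
  obtain ⟨e⟩ := Order.embedding_from_countable_to_dense ℚ (deg '' C)
  have key : ∀ r : ℝ, ∃ d : (deg '' C), ∀ q : ℚ, ((q : ℝ) < r → e q ≤ d) ∧ (r < q → d ≤ e q) := by
    intro r
    obtain ⟨u, hu, hur, hut⟩ := Real.exists_seq_rat_strictMono_tendsto r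
    obtain ⟨v, hv, hvr, hvt⟩ := Real.exists_seq_rat_strictAnti_tendsto r
    choose rep hrepC hrep using fun q : ℚ => (e q).2
    have hle : ∀ p q : ℚ, p ≤ q → rep p ≤ rep q := by
      intro p q hpq
      have h1 : e p ≤ e q := e.monotone hpq
      have h2 : (e p).1 ≤ (e q).1 := h1
      rw [← hrep p, ← hrep q] at h2
      exact h2
    have hnle : ∀ p q : ℚ, p < q → ¬ rep q ≤ rep p := by
      intro p q hpq hcon
      have h1 : e p < e q := e.strictMono hpq
      have h2 : (e q).1 ≤ (e p).1 := by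
        rw [← hrep p, ← hrep q]
        exact hcon
      exact absurd h1 (not_lt.2 h2)
    have huv : ∀ i j, u i < v j := by
      intro i j
      have := (hur i).trans (hvr j)
      exact_mod_cast this
    obtain ⟨c, hc, h3, h4⟩ := upper_cut hCQ hCch hCmax (a := fun i => rep (u i))
      (b := fun j => rep (v j)) (fun i => hrepC _) (fun i => hrepC _)
      (fun i j hij => hle _ _ (hu.monotone hij)) (fun i j hij => hle _ _ (hv.antitone hij))
      (fun i j => hle _ _ (huv i j).le) (fun i j => hnle _ _ (huv i j))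
    refine ⟨⟨deg c, c, hc, rfl⟩, fun q => ⟨fun hq => ?_, fun hq => ?_⟩⟩
    · obtain ⟨i, hi⟩ := (hut.eventually (eventually_gt_nhds hq)).exists
      have h5 : q ≤ u i := by exact_mod_cast hi.le
      refine (e.monotone h5).trans ?_
      show (e (u i)).1 ≤ deg c
      rw [← hrep (u i)]
      exact (h3 i).1
    · obtain ⟨i, hi⟩ := (hvt.eventually (eventually_lt_nhds hq)).exists
      have h5 : v i ≤ q := by exact_mod_cast hi.le
      refine le_trans ?_ (e.monotone h5)
      show deg c ≤ (e (v i)).1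
      rw [← hrep (v i)]
      exact (h4 i).1
  choose φ hφ using key
  have hinj : Function.Injective φ := by
    have haux : ∀ r s : ℝ, r < s → φ r < φ s := by
      intro r s hrs
      obtain ⟨p, hp1, hp2⟩ := exists_rat_btwn hrs
      obtain ⟨q, hq1, hq2⟩ := exists_rat_btwn hp2
      have hpq : p < q := by exact_mod_cast hq1
      calc φ r ≤ e p := (hφ r p).2 hp1
        _ < e q := e.strictMono hpq
        _ ≤ φ s := (hφ s q).1 hq2
    intro r s hrs
    rcases lt_trichotomy r s with h | h | h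
    · exact absurd hrs (haux r s h).ne
    · exact h
    · exact absurd hrs (haux s r h).ne'
  have h1 := Cardinal.mk_le_of_injective hinj
  rwa [Cardinal.mk_real] at h1

/-- **The Weihrauch degrees have a maximal chain of size `𝔠`.** -/
theorem exists_isMaxChain : ∃ D : Set Degree, IsMaxChain (· ≤ ·) D ∧ #D = 𝔠 := by
  obtain ⟨C, C2, hC2C, hCcard, hCch, hCmax, hC2Q, hC2max⟩ := exists_max_chain_univ
  refine ⟨deg '' C, ⟨?_, ?_⟩, le_antisymm (Cardinal.mk_image_le.trans hCcard) ?_⟩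
  · rintro _ ⟨f, hf, rfl⟩ _ ⟨g, hg, rfl⟩ -
    exact hCch f hf g hg
  · intro D hD hCD
    refine Set.Subset.antisymm hCD ?_
    intro d hd
    obtain ⟨h, rfl⟩ := deg_surj d
    obtain ⟨c, hc, h1, h2⟩ := hCmax h fun c hc => by
      have hcD : deg c ∈ D := hCD ⟨c, hc, rfl⟩
      exact hD.total hd hcD
    exact ⟨c, hc, deg_eq h2 h1⟩
  · refine (upper_card hC2Q (fun f hf g hg => hCch f (hC2C hf) g (hC2C hg)) hC2max).trans ?_
    exact Cardinal.mk_le_mk_of_subset (Set.image_mono hC2C)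

end Pool.Agent.Weih
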