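import Pool.Agent.Weih.Basic

set_option autoImplicit false

/-!
# The Weihrauch degrees and the power set of the reals embed into each other
-/

namespace Pool.Agent.Weih

open Nat.Partrec (Code)
open Encodable Cardinal

/-! ### Embedding the Weihrauch degrees into a power set -/

/-- the parameters of a test problem -/
abbrev TestPar : Type := ℕ → (ℕ → ℕ) × Option (ℕ → ℕ)

/-- the test problem with instances `k⌢x_k`, whose solutions are all points except `z_k` -/
def test (t : TestPar) : Problem :=
  ⟨fun x => {y | tail x = (t (x 0)).1 ∧ (t (x 0)).2 ≠ some y}⟩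

theorem test_dom {t : TestPar} {x : ℕ → ℕ} : x ∈ (test t).dom ↔ tail x = (t (x 0)).1 := by
  constructor
  · rintro ⟨y, h, -⟩
    exact h
  · intro h
    by_cases h0 : (t (x 0)).2 = some (fun _ => 0)
    · refine ⟨fun _ => 1, h, ?_⟩
      rw [h0]
      intro h1
      have h2 := congrFun (Option.some.inj h1) 0
      simp at h2
    · exact ⟨fun _ => 0, h, h0⟩

theorem le_iff_tests {f g : Problem} : f ≤ g ↔ ∀ t, test t ≤ f → test t ≤ g := by
  constructor
  · intro h t ht
    exact ht.trans h
  · intro h
    by_contra hfg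
    classical
    -- for every pair of codes, the shifted reduction fails
    have key : ∀ k : ℕ, ∃ p : (ℕ → ℕ) × Option (ℕ → ℕ), p.1 ∈ f.dom ∧
        (∀ y ∈ f.sol p.1, p.2 ≠ some y) ∧
        ∀ z ∈ g.dom, App (Denumerable.ofNat (Code × Code) k).1 (cons k p.1) z →
          ∃ y ∈ g.sol z, ∀ w, App (Denumerable.ofNat (Code × Code) k).2 (join (cons k p.1) y) w →
            p.2 = some w := by
      intro k
      obtain ⟨a, ha⟩ := exists_code_cons k
      obtain ⟨c', hc'⟩ := App.comp a (Denumerable.ofNat (Code × Code) k).1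
      -- the functional `⟨x, y⟩ ↦ ⟨k⌢x, y⟩`
      obtain ⟨fc, hfc⟩ := exists_code_fst
      obtain ⟨sc, hsc⟩ := exists_code_snd
      obtain ⟨u, hu⟩ := App.comp fc a
      obtain ⟨q, hq⟩ := exists_code_join u sc
      obtain ⟨d', hd'⟩ := App.comp q (Denumerable.ofNat (Code × Code) k).2
      have hnot : ¬ Red (c', d') f g := fun h => hfg ⟨_, h⟩
      unfold Red at hnot
      push Not at hnot
      obtain ⟨x, hx, h1⟩ := hnot
      by_cases hz : ∃ z ∈ g.dom, App (Denumerable.ofNat (Code × Code) k).1 (cons k x) z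
      · obtain ⟨z, hzg, hz⟩ := hz
        obtain ⟨y, hy, h2⟩ := h1 z hzg (hc' _ _ _ (ha x) hz)
        by_cases hw : ∃ w, App (Denumerable.ofNat (Code × Code) k).2 (join (cons k x) y) w
        · obtain ⟨w, hw⟩ := hw
          have hw' : App d' (join x y) w := by
            refine hd' _ _ _ ?_ hw
            exact hq _ _ _ (hu _ _ _ (hfc x y) (ha x)) (hsc x y)
          refine ⟨(x, some w), hx, ?_, ?_⟩
          · intro y' hy' h3
            have h4 : w = y' := Option.some.inj h3
            subst h4
            exact h2 w hy' hw'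
          · intro z' _ hz'
            have := App.unique hz hz'
            subst this
            refine ⟨y, hy, fun w' hw' => ?_⟩
            rw [App.unique hw hw']
        · refine ⟨(x, none), hx, fun _ _ => by simp, ?_⟩
          intro z' _ hz'
          have := App.unique hz hz'
          subst this
          exact ⟨y, hy, fun w' hw' => absurd ⟨w', hw'⟩ hw⟩
      · refine ⟨(x, none), hx, fun _ _ => by simp, ?_⟩
        intro z' hz'g hz'
        exact absurd ⟨z', hz'g, hz'⟩ hz
    choose t ht1 ht2 ht3 using key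
    have h1 : test t ≤ f := by
      obtain ⟨tc, htc⟩ := exists_code_tail
      obtain ⟨sc, hsc⟩ := exists_code_snd
      refine ⟨(tc, sc), fun x hx => ?_⟩
      rw [test_dom] at hx
      refine ⟨tail x, by rw [hx]; exact ht1 _, htc x, fun y hy => ⟨y, ⟨hx, ?_⟩, hsc x y⟩⟩
      rw [hx] at hy
      exact ht2 _ y hy
    obtain ⟨k, hk⟩ := h t h1
    have hkk : Denumerable.ofNat (Code × Code) (encode k) = k := Denumerable.ofNat_encode k
    have hdom : cons (encode k) (t (encode k)).1 ∈ (test t).dom := by
      rw [test_dom]; rfl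
    obtain ⟨z, hzg, hz, h2⟩ := hk _ hdom
    have h3 := ht3 (encode k) z hzg
    rw [hkk] at h3
    obtain ⟨y, hy, h4⟩ := h3 hz
    obtain ⟨w, hw, hw'⟩ := h2 y hy
    exact hw.2 (h4 w hw')

/-! ### A perfect set of pairwise incomparable reals -/

/-- the finite string `σ` is an initial segment of `x` -/
def Pre (σ : List ℕ) (x : ℕ → ℕ) : Prop := seg x σ.length = σ

theorem Pre.mono {σ τ : List ℕ} {x : ℕ → ℕ} (h : σ <+: τ) (hx : Pre τ x) : Pre σ x := by
  unfold Pre at *
  obtain ⟨ρ, rfl⟩ := h
  have h1 := congrArg (List.take σ.length) hx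
  rw [seg_take, List.take_left'] at h1
  · rwa [List.length_append, min_eq_left (Nat.le_add_right _ _)] at h1
  · rfl

/-- no real extending `σ` computes, with the program `c`, a real extending `τ` -/
def Forced (c : Code) (σ τ : List ℕ) : Prop := ∀ x y, Pre σ x → Pre τ y → ¬ App c x y

theorem Forced.mono {c : Code} {σ σ' τ τ' : List ℕ} (h : Forced c σ τ) (h1 : σ <+: σ')
    (h2 : τ <+: τ') : Forced c σ' τ' := fun x y hx hy => h x y (hx.mono h1) (hy.mono h2)

theorem exists_forced (c : Code) (σ τ : List ℕ) :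
    ∃ σ' τ', σ <+: σ' ∧ τ <+: τ' ∧ Forced c σ' τ' := by
  by_cases h : ∃ σ', σ <+: σ' ∧ ∃ m, m ≤ σ'.length ∧
      ∃ v, v ∈ c.eval (Nat.pair τ.length (encode (σ'.take m)))
  · obtain ⟨σ', h1, m, hm, v, hv⟩ := h
    refine ⟨σ', τ ++ [v + 1], h1, List.prefix_append _ _, fun x y hx hy happ => ?_⟩
    have h2 : σ'.take m = seg x m := by
      unfold Pre at hx
      rw [← hx, seg_take, min_eq_left hm]
    rw [h2] at hv
    have h3 := (happ τ.length v).1 ⟨m, hv⟩
    have h4 : y τ.length = v + 1 := by
      unfold Pre at hy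
      have h5 := congrArg (fun l => l.getI τ.length) hy
      have h6 : τ.length < (τ ++ [v + 1]).length := by simp
      simp only [seg_getI y h6] at h5
      rw [h5]
      simp [List.getI_eq_getElem]
    omega
  · refine ⟨σ, τ, List.prefix_rfl, List.prefix_rfl, fun x y hx hy happ => h ?_⟩
    obtain ⟨m, hm⟩ := (happ τ.length (y τ.length)).2 rfl
    refine ⟨seg x (max m σ.length), ?_, m, ?_, y τ.length, ?_⟩
    · have h1 : (seg x (max m σ.length)).take σ.length = σ := by
        rw [seg_take, min_eq_left (le_max_right _ _)]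
        exact hx
      have h2 := List.take_prefix σ.length (seg x (max m σ.length))
      rwa [h1] at h2
    · rw [seg_length]; exact le_max_left _ _
    · rw [seg_take, min_eq_left (le_max_left _ _)]
      exact hm

theorem exists_forced_family (R : Set (List Bool × List Bool × Code)) (hR : R.Finite)
    (hne : ∀ r ∈ R, r.1 ≠ r.2.1) (G : List Bool → List ℕ) :
    ∃ G' : List Bool → List ℕ, (∀ a, G a <+: G' a) ∧
      ∀ r ∈ R, Forced r.2.2 (G' r.1) (G' r.2.1) := by
  classical
  induction R, hR using Set.Finite.induction_on with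
  | empty => exact ⟨G, fun _ => List.prefix_rfl, fun r hr => absurd hr (Set.notMem_empty r)⟩
  | @insert r R _ _ ih =>
    obtain ⟨G1, h1, h2⟩ := ih fun r hr => hne r (Set.mem_insert_of_mem _ hr)
    obtain ⟨σ', τ', h3, h4, h5⟩ := exists_forced r.2.2 (G1 r.1) (G1 r.2.1)
    have hr : r.1 ≠ r.2.1 := hne r (Set.mem_insert _ _)
    have hG' : ∀ a, G1 a <+: Function.update (Function.update G1 r.1 σ') r.2.1 τ' a := by
      intro a
      by_cases ha : a = r.2.1
      · subst ha
        rw [Function.update_self]
        exact h4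
      · rw [Function.update_of_ne ha]
        by_cases ha' : a = r.1
        · subst ha'
          rw [Function.update_self]
          exact h3
        · rw [Function.update_of_ne ha']
    refine ⟨Function.update (Function.update G1 r.1 σ') r.2.1 τ',
      fun a => (h1 a).trans (hG' a), ?_⟩
    intro q hq
    rcases Set.mem_insert_iff.1 hq with rfl | hq
    · rw [Function.update_self, Function.update_of_ne hr, Function.update_self]
      exact h5
    · exact (h2 q hq).mono (hG' _) (hG' _)

/-- the requirements of stage `s` -/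
def Rq (s : ℕ) : Set (List Bool × List Bool × Code) :=
  {r | (r.1.length = s ∧ r.2.1.length = s ∧ encode r.2.2 < s) ∧ r.1 ≠ r.2.1}

theorem Rq_finite (s : ℕ) : (Rq s).Finite := by
  have h1 : {l : List Bool | l.length = s}.Finite := List.finite_length_eq Bool s
  have h2 : {c : Code | encode c < s}.Finite :=
    Set.Finite.preimage (encode_injective.injOn) (Set.finite_lt_nat s)
  refine (h1.prod (h1.prod h2)).subset ?_
  rintro ⟨a, b, c⟩ ⟨⟨ha, hb, hc⟩, -⟩
  exact ⟨ha, hb, hc⟩

theorem exists_stage (s : ℕ) (G : List Bool → List ℕ) : ∃ G' : List Bool → List ℕ,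
    (∀ a, G a <+: G' a) ∧ (∀ r ∈ Rq s, Forced r.2.2 (G' r.1) (G' r.2.1)) ∧
      ∀ a, (G a).length < (G' a).length := by
  obtain ⟨G', h1, h2⟩ := exists_forced_family (Rq s) (Rq_finite s) (fun r hr => hr.2) G
  refine ⟨fun a => G' a ++ [0], fun a => (h1 a).trans (List.prefix_append _ _), fun r hr =>
    (h2 r hr).mono (List.prefix_append _ _) (List.prefix_append _ _), fun a => ?_⟩
  have := (h1 a).length_le
  rw [List.length_append]
  simp only [List.length_cons, List.length_nil]
  omega

theorem exists_incomparable : ∃ X : (ℕ → Bool) → (ℕ → ℕ), ∀ a b, a ≠ b → ∀ c : Code,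
    ¬ App c (X a) (X b) := by
  choose E hE1 hE2 hE3 using exists_stage
  let H : ℕ → List Bool → List ℕ := fun s => Nat.rec (motive := fun _ => List Bool → List ℕ)
    (fun _ => []) (fun s G => E (s + 1) fun a => G (a.take s)) s
  have hH : ∀ s, H (s + 1) = E (s + 1) fun a => H s (a.take s) := fun s => rfl
  let S : (ℕ → Bool) → ℕ → List ℕ := fun a s => H s ((List.range s).map a)
  have htake : ∀ (a : ℕ → Bool) (s : ℕ), ((List.range (s + 1)).map a).take s =
      (List.range s).map a := by
    intro a s
    rw [← List.map_take, List.take_range, min_eq_left (Nat.le_succ s)]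
  have hS1 : ∀ a s, S a s <+: S a (s + 1) := by
    intro a s
    have h := hE1 (s + 1) (fun a => H s (a.take s)) ((List.range (s + 1)).map a)
    rw [htake] at h
    exact h
  have hS2 : ∀ a s, (S a s).length < (S a (s + 1)).length := by
    intro a s
    have h := hE3 (s + 1) (fun a => H s (a.take s)) ((List.range (s + 1)).map a)
    rw [htake] at h
    exact h
  have hS3 : ∀ a s t, s ≤ t → S a s <+: S a t := by
    intro a s t hst
    induction t, hst using Nat.le_induction with
    | base => exact List.prefix_rfl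
    | succ t _ ih => exact ih.trans (hS1 a t)
  have hS4 : ∀ a s, s ≤ (S a s).length := by
    intro a s
    induction s with
    | zero => exact Nat.zero_le _
    | succ s ih => have := hS2 a s; omega
  let X : (ℕ → Bool) → (ℕ → ℕ) := fun a n => (S a (n + 1)).getI n
  have hX : ∀ a s, Pre (S a s) (X a) := by
    intro a s
    unfold Pre
    apply List.ext_getElem
    · rw [seg_length]
    · intro i h1 h2
      simp only [seg, List.getElem_map, List.getElem_range]
      show (S a (i + 1)).getI i = _
      have h3 : i < (S a (i + 1)).length := by have := hS4 a (i + 1); omega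
      rw [List.getI_eq_getElem _ h3]
      rcases le_total s (i + 1) with h | h
      · exact ((hS3 a _ _ h).getElem h2).symm
      · exact (hS3 a _ _ h).getElem h3
  refine ⟨X, fun a b hab c happ => ?_⟩
  obtain ⟨n, hn⟩ : ∃ n, a n ≠ b n := by
    by_contra h
    push Not at h
    exact hab (funext h)
  -- a late enough stage
  obtain ⟨s, hs1, hs2⟩ : ∃ s, n < s + 1 ∧ encode c < s + 1 :=
    ⟨max n (encode c), by omega, by omega⟩
  have hne : (List.range (s + 1)).map a ≠ (List.range (s + 1)).map b := by
    intro h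
    have h1 := List.map_inj_left.1 h n (List.mem_range.2 hs1)
    exact hn h1
  have hF := hE2 (s + 1) (fun a => H s (a.take s))
    ((List.range (s + 1)).map a, (List.range (s + 1)).map b, c)
    ⟨⟨by simp, by simp, hs2⟩, hne⟩
  exact hF (X a) (X b) (hX a (s + 1)) (hX b (s + 1)) happ

/-! ### The two embeddings -/

/-- the problem with the instances in `X '' A`, all of whose points are solutions -/
def ofSet (X : (ℕ → Bool) → (ℕ → ℕ)) (A : Set (ℕ → Bool)) : Problem :=
  ⟨fun x => {_y | x ∈ X '' A}⟩

theorem ofSet_dom {X : (ℕ → Bool) → (ℕ → ℕ)} {A : Set (ℕ → Bool)} :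
    (ofSet X A).dom = X '' A := by
  ext x
  exact ⟨fun ⟨_, h⟩ => h, fun h => ⟨x, h⟩⟩

theorem ofSet_le {X : (ℕ → Bool) → (ℕ → ℕ)} (hX : ∀ a b, a ≠ b → ∀ c : Code, ¬ App c (X a) (X b))
    {A B : Set (ℕ → Bool)} : ofSet X A ≤ ofSet X B ↔ A ⊆ B := by
  constructor
  · rintro ⟨k, hk⟩ a ha
    obtain ⟨z, hz, happ, -⟩ := hk (X a) (by rw [ofSet_dom]; exact ⟨a, ha, rfl⟩)
    rw [ofSet_dom] at hz
    obtain ⟨b, hb, rfl⟩ := hz
    by_cases hab : a = b
    · rw [hab]; exact hb
    · exact absurd happ (hX a b hab _)
  · intro h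
    refine Sub.le fun x hx => ?_
    rw [ofSet_dom] at hx ⊢
    have hx' : x ∈ X '' B := Set.image_mono h hx
    exact ⟨hx', fun y _ => hx⟩

theorem mk_testPar : #TestPar = 𝔠 := by
  have h1 : #((ℕ → ℕ) × Option (ℕ → ℕ)) = 𝔠 := by
    rw [Cardinal.mk_prod, Cardinal.mk_option]
    simp only [Cardinal.mk_pi, Cardinal.mk_nat, Cardinal.prod_const, Cardinal.lift_id,
      Cardinal.aleph0_power_aleph0]
    rw [Cardinal.add_one_eq Cardinal.aleph0_le_continuum, Cardinal.continuum_mul_self]
  have h2 : #TestPar = #((ℕ → ℕ) × Option (ℕ → ℕ)) ^ #ℕ := by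
    rw [Cardinal.power_def]
  rw [h2, h1]
  simp

theorem exists_degree_embedding : Nonempty (Degree ↪o Set ℝ) := by
  have h : #TestPar = #ℝ := by rw [mk_testPar, Cardinal.mk_real]
  obtain ⟨e⟩ := Cardinal.eq.1 h
  let F : Problem → Set ℝ := fun f => {r | test (e.symm r) ≤ f}
  have hF : ∀ f g, F f ⊆ F g ↔ f ≤ g := by
    intro f g
    rw [le_iff_tests]
    constructor
    · intro h t ht
      have h1 : e t ∈ F f := by
        show test (e.symm (e t)) ≤ f
        rw [e.symm_apply_apply]
        exact ht
      have h2 := h h1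
      have h3 : test (e.symm (e t)) ≤ g := h2
      rwa [e.symm_apply_apply] at h3
    · intro h r hr
      exact h _ hr
  refine ⟨OrderEmbedding.ofMapLEIff (fun d => F (ofAntisymmetrization (· ≤ ·) d)) ?_⟩
  intro d d'
  show F _ ⊆ F _ ↔ _
  rw [hF]
  exact ofAntisymmetrization_le_ofAntisymmetrization_iff

theorem exists_set_embedding : Nonempty (Set ℝ ↪o Degree) := by
  have h : #ℝ = #(ℕ → Bool) := by
    rw [Cardinal.mk_real]
    simp
  obtain ⟨e⟩ := Cardinal.eq.1 h
  obtain ⟨X, hX⟩ := exists_incomparable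
  refine ⟨OrderEmbedding.ofMapLEIff
    (fun A => toAntisymmetrization (· ≤ ·) (ofSet X (e '' A))) ?_⟩
  intro A B
  rw [toAntisymmetrization_le_toAntisymmetrization_iff, ofSet_le hX]
  exact Set.image_subset_image_iff e.injective

end Pool.Agent.Weih
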