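import Pool.Agent.Weih.Cut

set_option autoImplicit false

namespace Pool.Agent.Weih

open Nat.Partrec (Code)
open Encodable Cardinal

theorem exists_max_chain (Q : Set Problem) :
    ∃ C ⊆ Q, Chn C ∧ ∀ h ∈ Q, (∀ c ∈ C, h ≤ c ∨ c ≤ h) → h ∈ C := by
  classical
  let r : Q → Q → Prop := fun x y => x.1 ≤ y.1
  obtain ⟨hch, hmax⟩ := maxChain_spec (r := r)
  refine ⟨Subtype.val '' (maxChain r), ?_, ?_, ?_⟩
  · rintro _ ⟨x, -, rfl⟩; exact x.2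
  · rintro _ ⟨x, hx, rfl⟩ _ ⟨y, hy, rfl⟩
    by_cases hxy : x = y
    · subst hxy; exact Or.inl le_rfl
    · exact hch hx hy hxy
  · intro h hh hcomp
    have h2 : IsChain r (insert ⟨h, hh⟩ (maxChain r)) := by
      refine hch.insert fun b hb _ => ?_
      exact hcomp b.1 ⟨b, hb, rfl⟩
    have h3 := hmax h2 (Set.subset_insert _ _)
    refine ⟨⟨h, hh⟩, ?_, rfl⟩
    rw [h3]
    exact Set.mem_insert _ _

/-- `P` has a maximal chain of size at most the continuum -/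
def Good (P : Set Problem) : Prop :=
  ∃ C ⊆ P, #C ≤ 𝔠 ∧ Chn C ∧
    ∀ h ∈ P, (∀ c ∈ C, h ≤ c ∨ c ≤ h) → ∃ c ∈ C, h ≤ c ∧ c ≤ h

theorem glue {I : Type} [LinearOrder I] (hI : #I ≤ 𝔠) (c : I → Problem) (hc : Monotone c)
    (P : Set Problem) (h1 : ∀ i, Good {h | h ∈ P ∧ (∀ j < i, c j ≤ h) ∧ h ≤ c i})
    (h2 : ∀ h ∈ P, (∀ i, h ≤ c i ∨ c i ≤ h) → ∃ i, (∀ j < i, c j ≤ h) ∧ h ≤ c i)
    (h3 : ∀ i, c i ∈ P) : Good P := by
  choose C hCP hCcard hCch hCmax using h1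
  refine ⟨⋃ i, C i, ?_, ?_, ?_, ?_⟩
  · intro f hf
    obtain ⟨i, hi⟩ := Set.mem_iUnion.1 hf
    exact (hCP i hi).1
  · calc #(⋃ i, C i) ≤ Cardinal.sum (fun i => #(C i)) := Cardinal.mk_iUnion_le_sum_mk
      _ ≤ Cardinal.sum (fun _ : I => 𝔠) := Cardinal.sum_le_sum _ _ hCcard
      _ = #I * 𝔠 := by simp
      _ ≤ 𝔠 * 𝔠 := mul_le_mul_left hI _
      _ = 𝔠 := Cardinal.continuum_mul_self
  · intro f hf g hg
    obtain ⟨i, hi⟩ := Set.mem_iUnion.1 hf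
    obtain ⟨j, hj⟩ := Set.mem_iUnion.1 hg
    rcases lt_trichotomy i j with hij | rfl | hij
    · exact Or.inl ((hCP i hi).2.2.trans ((hCP j hj).2.1 i hij))
    · exact hCch i f hi g hj
    · exact Or.inr ((hCP j hj).2.2.trans ((hCP i hi).2.1 j hij))
  · intro h hh hcomp
    have hci : ∀ i, ∃ c' ∈ C i, c i ≤ c' ∧ c' ≤ c i := by
      intro i
      refine hCmax i (c i) ⟨h3 i, fun j hj => hc hj.le, le_rfl⟩ fun c' hc' => ?_
      exact Or.inr (hCP i hc').2.2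
    have hcomp' : ∀ i, h ≤ c i ∨ c i ≤ h := by
      intro i
      obtain ⟨c', hc', h4, h5⟩ := hci i
      rcases hcomp c' (Set.mem_iUnion.2 ⟨i, hc'⟩) with h6 | h6
      · exact Or.inl (h6.trans h5)
      · exact Or.inr (h4.trans h6)
    obtain ⟨i, hi1, hi2⟩ := h2 h hh hcomp'
    obtain ⟨c', hc', h4⟩ := hCmax i h ⟨hh, hi1, hi2⟩
      fun c' hc' => hcomp c' (Set.mem_iUnion.2 ⟨i, hc'⟩)
    exact ⟨c', Set.mem_iUnion.2 ⟨i, hc'⟩, h4⟩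

theorem good_of_small {P : Set Problem} (C : Set Problem) (hCP : C ⊆ P) (hC : #C ≤ 𝔠) (hch : Chn C)
    (h : ∀ h ∈ P, ∃ c ∈ C, h ≤ c ∧ c ≤ h) : Good P :=
  ⟨C, hCP, hC, hch, fun h' hh' _ => h h' hh'⟩

end Pool.Agent.Weih
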