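import Pool.Agent.Weih.Basic

set_option autoImplicit false

namespace Pool.Agent.Weih

open Nat.Partrec (Code)
open Encodable

/-- decode the `j`-th index from a tag -/
def decIdx (j c : ℕ) : Code × Code :=
  (((decode (α := List (Code × Code)) c.unpair.2).getD []).getD j (Code.zero, Code.zero))

theorem decIdx_computable (j : ℕ) : Computable (decIdx j) := by
  have h1 : Primrec (fun c : ℕ => (decode (α := List (Code × Code)) c.unpair.2).getD []) :=
    Primrec.option_getD.comp (Primrec.decode.comp (Primrec.snd.comp Primrec.unpair))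
      (Primrec.const _)
  exact ((Primrec.list_getD _).comp h1 (Primrec.const j)).to_comp

theorem decIdx_spec (M s j : ℕ) (r : ℕ → Code × Code) (hj : j ≤ s) :
    decIdx j (Nat.pair M (encode ((List.range (s + 1)).map r))) = r j := by
  unfold decIdx
  rw [Nat.unpair_pair]
  simp only [encodek, Option.getD_some]
  have h : j < ((List.range (s + 1)).map r).length := by simp; omega
  rw [List.getD_eq_getElem _ _ h]
  simp

section

variable (a b : ℕ → Problem) (P : Set Problem)

/-- a stage of the construction -/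
structure Stage where
  H : ℕ → Problem
  N : ℕ
  inP : ∀ c, H c ∈ P
  supp : ∀ c, N ≤ c → H c = zero
  small : ∀ c, ∃ l, H c ≤ a l

/-- one step of the construction -/
structure Step (s : ℕ) (S S' : Stage a P) : Prop where
  lt : S.N < S'.N
  agree : ∀ c < S.N, S'.H c = S.H c
  dec : ∀ c, S.N ≤ c → ∀ j ≤ s, Red (decIdx j c) (S'.H c) (b j)
  add : ∃ c, S.N ≤ c ∧ c < S'.N ∧ S'.H c = a s
  diagL : ∀ (l : ℕ) (k : Code × Code) (j : ℕ), encode ((l, k), j) = s →
    ∃ c < S'.N, ¬ Red k (one c (S'.H c)) (a l)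
  diagR : ∀ (l : ℕ) (k : Code × Code) (j : ℕ), encode ((l, k), j) = s →
    ∀ H' : ℕ → Problem, (∀ c < S'.N, H' c = S'.H c) → ¬ Red k (b j) (tsum H')

variable {a b P}

theorem Stage.tsum_small (ha : Monotone a) (S : Stage a P) : ∃ l, tsum S.H ≤ a l := by
  choose l hl using S.small
  refine ⟨(Finset.range S.N).sup l, tsum_le_of_finite S.N S.supp ?_⟩
  intro e
  by_cases he : e < S.N
  · exact (hl e).trans (ha (Finset.le_sup (f := l) (Finset.mem_range.2 he)))
  · rw [S.supp e (by omega)]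
    exact zero_le _

theorem exists_restraint (hnba : ∀ i j, ¬ b j ≤ a i) (ha : Monotone a) (S : Stage a P) (j : ℕ)
    (k : Code × Code) :
    ∃ N', S.N ≤ N' ∧ ∀ H' : ℕ → Problem, (∀ c < N', H' c = S.H c) → ¬ Red k (b j) (tsum H') := by
  obtain ⟨l, hl⟩ := S.tsum_small ha
  have h1 : ¬ Red k (b j) (tsum S.H) := fun h => hnba l j (h.le.trans hl)
  unfold Red at h1
  push Not at h1
  obtain ⟨x, hx, h2⟩ := h1
  by_cases hz : ∃ z, App k.1 x z
  · obtain ⟨z, hz⟩ := hz
    refine ⟨max S.N (z 0 + 1), le_max_left _ _, fun H' hH' hred => ?_⟩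
    obtain ⟨z', hz', happ, h3⟩ := hred x hx
    have := App.unique hz happ
    subst this
    have e : (tsum H').sol z = (tsum S.H).sol z := by
      rw [tsum_sol, tsum_sol, hH' (z 0) (lt_of_lt_of_le (Nat.lt_succ_self _) (le_max_right _ _))]
    have hz2 : z ∈ (tsum S.H).dom := by
      unfold Problem.dom at hz' ⊢
      simp only [Set.mem_ofPred_eq] at hz' ⊢
      rwa [e] at hz'
    obtain ⟨y, hy, h4⟩ := h2 z hz2 hz
    rw [← e] at hy
    obtain ⟨w, hw, hw'⟩ := h3 y hy
    exact h4 w hw hw'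
  · refine ⟨S.N, le_rfl, fun H' _ hred => ?_⟩
    obtain ⟨z', -, happ, -⟩ := hred x hx
    exact hz ⟨z', happ⟩

theorem exists_diag (hnba : ∀ i j, ¬ b j ≤ a i)
    (hsmall : ∀ j, ∀ w ∈ (b j).dom, ∃ q ∈ P, Sub q (b j) ∧ w ∈ q.dom ∧
      q.sol w ⊆ (b j).sol w ∧ ∃ l, q ≤ a l) (s c l : ℕ) (k : Code × Code) :
    ∃ q ∈ P, Sub q (b s) ∧ (∃ l', q ≤ a l') ∧ ¬ Red k (one c q) (a l) := by
  have h1 : ¬ Red k (one c (b s)) (a l) := fun h => hnba l s ((le_one c (b s)).trans h.le)
  unfold Red at h1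
  push Not at h1
  obtain ⟨x, hx, h2⟩ := h1
  rw [mem_one_dom] at hx
  obtain ⟨q, hqP, hqs, hqd, hqw, hql⟩ := hsmall s (tail x) hx.2
  refine ⟨q, hqP, hqs, hql, fun hred => ?_⟩
  obtain ⟨z, hz, happ, h3⟩ := hred x (mem_one_dom.2 ⟨hx.1, hqd⟩)
  obtain ⟨y, hy, h4⟩ := h2 z hz happ
  obtain ⟨w, hw, hw'⟩ := h3 y hy
  rw [one_sol hx.1] at hw h4
  exact h4 w (hqw hw) hw'

theorem step_exists (hab : ∀ i j, a i ≤ b j) (hnba : ∀ i j, ¬ b j ≤ a i) (ha : Monotone a)
    (hb : Antitone b) (haP : ∀ i, a i ∈ P)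
    (hsmall : ∀ j, ∀ w ∈ (b j).dom, ∃ q ∈ P, Sub q (b j) ∧ w ∈ q.dom ∧
      q.sol w ⊆ (b j).sol w ∧ ∃ l, q ≤ a l) (s : ℕ) (S : Stage a P) :
    ∃ S' : Stage a P, Step a b P s S S' := by
  classical
  -- the task of stage `s`
  obtain ⟨t, ht⟩ : ∃ t : (ℕ × (Code × Code)) × ℕ, ∀ t', encode t' = s → t' = t := by
    by_cases h : ∃ t' : (ℕ × (Code × Code)) × ℕ, encode t' = s
    · obtain ⟨t, ht⟩ := h
      exact ⟨t, fun t' ht' => encode_injective (ht'.trans ht.symm)⟩
    · exact ⟨((0, (Code.zero, Code.zero)), 0), fun t' ht' => absurd ⟨t', ht'⟩ h⟩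
  obtain ⟨N', hN', hrestr⟩ := exists_restraint hnba ha S t.2 t.1.2
  have r1 : ∀ j, ∃ k, Red k (a s) (b j) := fun j => hab s j
  choose r1 hr1 using r1
  have r2 : ∀ j, ∃ k, j ≤ s → Red k (b s) (b j) := by
    intro j
    by_cases hj : j ≤ s
    · obtain ⟨k, hk⟩ := le_def.1 (hb hj)
      exact ⟨k, fun _ => hk⟩
    · exact ⟨(Code.zero, Code.zero), fun h => absurd h hj⟩
  choose r2 hr2 using r2
  set c1 := Nat.pair N' (encode ((List.range (s + 1)).map r1)) with hc1
  set c2 := Nat.pair (c1 + 1) (encode ((List.range (s + 1)).map r2)) with hc2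
  have h01 : N' ≤ c1 := Nat.left_le_pair _ _
  have h12 : c1 < c2 := lt_of_lt_of_le (Nat.lt_succ_self _) (Nat.left_le_pair _ _)
  obtain ⟨q, hqP, hqs, hql, hqd⟩ := exists_diag hnba hsmall s c2 t.1.1 t.1.2
  have hH : ∀ c, c ≠ c1 → c ≠ c2 →
      Function.update (Function.update S.H c1 (a s)) c2 q c = S.H c := by
    intro c h1 h2
    rw [Function.update_of_ne h2, Function.update_of_ne h1]
  have hH1 : Function.update (Function.update S.H c1 (a s)) c2 q c1 = a s := by
    rw [Function.update_of_ne h12.ne, Function.update_self]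
  have hH2 : Function.update (Function.update S.H c1 (a s)) c2 q c2 = q := by
    rw [Function.update_self]
  refine ⟨⟨Function.update (Function.update S.H c1 (a s)) c2 q, c2 + 1, ?_, ?_, ?_⟩,
    ⟨?_, ?_, ?_, ?_, ?_, ?_⟩⟩
  · intro c
    by_cases h1 : c = c1
    · rw [h1, hH1]; exact haP s
    · by_cases h2 : c = c2
      · rw [h2, hH2]; exact hqP
      · rw [hH c h1 h2]; exact S.inP c
  · intro c hc
    rw [hH c (by omega) (by omega)]
    exact S.supp c (by omega)
  · intro c
    by_cases h1 : c = c1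
    · rw [h1, hH1]; exact ⟨s, le_rfl⟩
    · by_cases h2 : c = c2
      · rw [h2, hH2]; exact hql
      · rw [hH c h1 h2]; exact S.small c
  · show S.N < c2 + 1
    omega
  · intro c hc
    exact hH c (by omega) (by omega)
  · intro c hc j hj
    show Red (decIdx j c) (Function.update (Function.update S.H c1 (a s)) c2 q c) (b j)
    by_cases h1 : c = c1
    · rw [h1, hH1, hc1, decIdx_spec _ _ _ _ hj]
      exact hr1 j
    · by_cases h2 : c = c2
      · rw [h2, hH2, hc2, decIdx_spec _ _ _ _ hj]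
        exact (hr2 j hj).sub_left hqs
      · rw [hH c h1 h2, S.supp c hc]
        exact red_zero _ _
  · exact ⟨c1, by omega, by show c1 < c2 + 1; omega, hH1⟩
  · intro l k j hljk
    have := ht _ hljk
    refine ⟨c2, Nat.lt_succ_self _, ?_⟩
    show ¬ Red k (one c2 (Function.update (Function.update S.H c1 (a s)) c2 q c2)) (a l)
    rw [hH2]
    rw [← this] at hqd
    exact hqd
  · intro l k j hljk H' hH'
    have := ht _ hljk
    rw [← this] at hrestr
    refine hrestr H' fun c hc => ?_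
    rw [hH' c (by show c < c2 + 1; omega)]
    exact hH c (by omega) (by omega)

/-- **Interpolation lemma.** -/
theorem interpolation (hab : ∀ i j, a i ≤ b j) (hnba : ∀ i j, ¬ b j ≤ a i) (ha : Monotone a)
    (hb : Antitone b) (haP : ∀ i, a i ∈ P) (h0 : zero ∈ P)
    (hsmall : ∀ j, ∀ w ∈ (b j).dom, ∃ q ∈ P, Sub q (b j) ∧ w ∈ q.dom ∧
      q.sol w ⊆ (b j).sol w ∧ ∃ l, q ≤ a l) :
    ∃ H : ℕ → Problem, (∀ c, H c ∈ P) ∧ (∀ i, a i ≤ tsum H) ∧ (∀ j, tsum H ≤ b j) ∧
      (∀ i, ¬ tsum H ≤ a i) ∧ (∀ j, ¬ b j ≤ tsum H) := by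
  classical
  have hstep := step_exists (P := P) hab hnba ha hb haP hsmall
  choose nxt hnxt using hstep
  let S0 : Stage a P := ⟨fun _ => zero, 0, fun _ => h0, fun _ _ => rfl, fun _ => ⟨0, zero_le _⟩⟩
  obtain ⟨S, hSz, hS⟩ : ∃ S : ℕ → Stage a P, (S 0).N = 0 ∧
      ∀ s, Step a b P s (S s) (S (s + 1)) :=
    ⟨fun n => Nat.rec S0 (fun s T => nxt s T) n, rfl, fun s => hnxt s _⟩
  have hN : ∀ s, s ≤ (S s).N := by
    intro s
    induction s with
    | zero => exact Nat.zero_le _
    | succ s ih => exact lt_of_le_of_lt ih (hS s).lt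
  have hNmono : Monotone (fun s => (S s).N) := monotone_nat_of_le_succ fun s => (hS s).lt.le
  have hag : ∀ s t, s ≤ t → ∀ c < (S s).N, (S t).H c = (S s).H c := by
    intro s t hst
    induction t, hst using Nat.le_induction with
    | base => intro c _; rfl
    | succ t hst ih =>
      intro c hc
      rw [(hS t).agree c (lt_of_lt_of_le hc (hNmono hst)), ih c hc]
  let H : ℕ → Problem := fun c => (S (c + 1)).H c
  have hH : ∀ s, ∀ c < (S s).N, H c = (S s).H c := by
    intro s c hc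
    rcases le_total s (c + 1) with h | h
    · exact hag s (c + 1) h c hc
    · exact (hag (c + 1) s h c (hN (c + 1))).symm
  refine ⟨H, fun c => (S (c + 1)).inP c, ?_, ?_, ?_, ?_⟩
  · intro i
    obtain ⟨c, -, hc, hci⟩ := (hS i).add
    have := le_tsum H c
    rwa [hH (i + 1) c hc, hci] at this
  · intro j
    have hsm : ∀ c, H c ≤ b j := by
      intro c
      obtain ⟨l, hl⟩ := (S (c + 1)).small c
      exact hl.trans (hab l j)
    choose v hv using fun c => le_def.1 (hsm c)
    refine tsum_le (fun c => if c < (S j).N then v c else decIdx j c)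
      (computable_modify (decIdx_computable j) v _) ?_
    intro c
    by_cases hc : c < (S j).N
    · simp only [hc, if_true]; exact hv c
    · simp only [hc, if_false]
      -- find the stage at which `c` is decided
      have hex : ∃ s, c < (S (s + 1)).N := ⟨c, hN (c + 1)⟩
      set s := Nat.find hex with hs
      have h1 : c < (S (s + 1)).N := Nat.find_spec hex
      have h2 : (S s).N ≤ c := by
        rcases Nat.eq_zero_or_pos s with h0' | hpos
        · rw [h0', hSz]; exact Nat.zero_le _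
        · by_contra hlt
          push Not at hlt
          have : c < (S ((s - 1) + 1)).N := by rwa [Nat.sub_add_cancel hpos]
          exact Nat.find_min hex (Nat.sub_lt hpos Nat.one_pos) this
      have h3 : j ≤ s := by
        by_contra hlt
        push Not at hlt
        exact hc (lt_of_lt_of_le h1 (hNmono hlt))
      rw [hH (s + 1) c h1]
      exact (hS s).dec c h2 j h3
  · intro i hle
    obtain ⟨k, hk⟩ := le_def.1 hle
    obtain ⟨c, hc, hcd⟩ := (hS (encode ((i, k), 0))).diagL i k 0 rfl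
    rw [← hH (encode ((i, k), 0) + 1) c hc] at hcd
    exact hcd (hk.sub_left (one_sub_tsum H c))
  · intro j hle
    obtain ⟨k, hk⟩ := le_def.1 hle
    exact (hS (encode ((0, k), j))).diagR 0 k j rfl H
      (fun c hc => hH (encode ((0, k), j) + 1) c hc) hk

end

end Pool.Agent.Weih
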