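import Pool.Agent.Weih.Local

set_option autoImplicit false

namespace Pool.Agent.Weih

open Nat.Partrec (Code)
open Encodable Cardinal

theorem good_limit {ι : Type} [LinearOrder ι] (S : ι → Set (ℕ → ℕ)) (hS : Monotone S) :
    Good {h | (∀ j, dd (S j) ≤ h) ∧ h ≤ dd (⋃ j, S j)} := by
  classical
  by_cases hseq : ∃ u : ℕ → ι, ∀ j, ∃ n, j ≤ u n
  · obtain ⟨u, hu⟩ := hseq
    let v : ℕ → ι := fun n => Nat.rec (u 0) (fun n x => max x (u (n + 1))) n
    have hvmono : Monotone v := monotone_nat_of_le_succ fun n => le_max_left _ _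
    have huv : ∀ n, u n ≤ v n := by
      intro n
      cases n with
      | zero => exact le_rfl
      | succ n => exact le_max_right _ _
    let S' : ℕ → Set (ℕ → ℕ) := fun n => Nat.casesOn n ∅ (fun n => S (v n))
    have hS' : Monotone S' := by
      refine monotone_nat_of_le_succ fun n => ?_
      cases n with
      | zero => exact Set.empty_subset _
      | succ n => exact hS (hvmono (Nat.le_succ n))
    have hU : (⋃ n, S' n) = ⋃ j, S j := by
      ext x
      simp only [Set.mem_iUnion]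
      constructor
      · rintro ⟨n, hn⟩
        cases n with
        | zero => exact absurd hn (Set.notMem_empty _)
        | succ n => exact ⟨_, hn⟩
      · rintro ⟨j, hj⟩
        obtain ⟨n, hn⟩ := hu j
        exact ⟨n + 1, hS (hn.trans (huv n)) hj⟩
    have key := good_local hS' rfl
    rw [hU] at key
    convert key using 1
    ext h
    simp only [Set.mem_ofPred_eq]
    constructor
    · rintro ⟨h1, h2⟩
      refine ⟨fun n => ?_, h2⟩
      cases n with
      | zero => exact (dd_mono (Set.empty_subset _)).trans (h1 (u 0))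
      | succ n => exact h1 _
    · rintro ⟨h1, h2⟩
      refine ⟨fun j => ?_, h2⟩
      obtain ⟨n, hn⟩ := hu j
      exact (dd_mono (hS (hn.trans (huv n)))).trans (h1 (n + 1))
  · push Not at hseq
    refine good_of_small {dd (⋃ j, S j)} ?_ ?_ ?_ ?_
    · rintro f rfl
      exact ⟨fun j => dd_mono (Set.subset_iUnion S j), le_rfl⟩
    · rw [Cardinal.mk_singleton]
      exact (Cardinal.one_lt_aleph0.trans Cardinal.aleph0_lt_continuum).le
    · rintro f rfl g rfl
      exact Or.inl le_rfl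
    · rintro h ⟨h1, h2⟩
      refine ⟨_, rfl, h2, ?_⟩
      -- some index works cofinally
      have hk : ∃ k : Code × Code, ∀ u, ∃ j, u ≤ j ∧ Red k (dd (S j)) h := by
        by_contra hcon
        push Not at hcon
        choose u hu using hcon
        obtain ⟨e, he⟩ := exists_surjective_nat (Code × Code)
        obtain ⟨j, hj⟩ := hseq (fun n => u (e n))
        obtain ⟨k, hk⟩ := le_def.1 (h1 j)
        obtain ⟨n, rfl⟩ := he k
        exact hu (e n) j (hj n).le hk
      obtain ⟨k, hk⟩ := hk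
      rw [dd_le_iff]
      refine ⟨k.1, fun x hx => ?_⟩
      obtain ⟨i, hi⟩ := Set.mem_iUnion.1 hx
      obtain ⟨j, hij, hr⟩ := hk i
      obtain ⟨z, hz, happ, -⟩ := hr x (by rw [dd_dom]; exact hS hij hi)
      exact ⟨z, hz, happ⟩

/-- the set of tagged points -/
def JJ (U Z : Set (ℕ → ℕ)) : Set (ℕ → ℕ) :=
  {w | (w 0 = 0 ∧ tail w ∈ U) ∨ (w 0 = 1 ∧ tail w ∈ Z)}

theorem le_JJ_left (U Z : Set (ℕ → ℕ)) : dd U ≤ dd (JJ U Z) := by
  rw [dd_le_iff]
  obtain ⟨c, hc⟩ := exists_code_cons 0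
  exact ⟨c, fun x hx => ⟨cons 0 x, by rw [dd_dom]; exact Or.inl ⟨rfl, hx⟩, hc x⟩⟩

theorem le_JJ_right (U Z : Set (ℕ → ℕ)) : dd Z ≤ dd (JJ U Z) := by
  rw [dd_le_iff]
  obtain ⟨c, hc⟩ := exists_code_cons 1
  exact ⟨c, fun x hx => ⟨cons 1 x, by rw [dd_dom]; exact Or.inr ⟨rfl, hx⟩, hc x⟩⟩

theorem JJ_le {U Z : Set (ℕ → ℕ)} {h : Problem} (hU : dd U ≤ h) (hZ : dd Z ≤ h) :
    dd (JJ U Z) ≤ h := by
  have h1 : Sub (dd (JJ U Z))
      (tsum fun e => if e = 0 then dd U else if e = 1 then dd Z else zero) := by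
    intro x hx
    rw [dd_dom] at hx
    refine ⟨?_, fun y _ => hx⟩
    rw [mem_tsum_dom]
    rcases hx with ⟨h0, hx⟩ | ⟨h0, hx⟩
    · simp only [h0, if_true, dd_dom]; exact hx
    · simp only [h0, dd_dom, one_ne_zero, if_false, if_true]; exact hx
  refine h1.le.trans (tsum_le_of_finite 2 ?_ ?_)
  · intro e he
    rw [if_neg (by omega), if_neg (by omega)]
  · intro e
    split_ifs
    · exact hU
    · exact hZ
    · exact zero_le _

theorem JJ_mono {U Z Z' : Set (ℕ → ℕ)} (h : Z ⊆ Z') : JJ U Z ⊆ JJ U Z' := by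
  rintro w (hw | hw)
  · exact Or.inl hw
  · exact Or.inr ⟨hw.1, h hw.2⟩

/-- Turing reducibility -/
def TLe (y x : ℕ → ℕ) : Prop := ∃ c : Code, App c x y

theorem TLe.refl (x : ℕ → ℕ) : TLe x x :=
  let ⟨c, hc⟩ := exists_code_id
  ⟨c, hc x⟩

theorem TLe.trans {x y z : ℕ → ℕ} (h1 : TLe x y) (h2 : TLe y z) : TLe x z := by
  obtain ⟨c, hc⟩ := h1
  obtain ⟨d, hd⟩ := h2
  obtain ⟨e, he⟩ := App.comp d c
  exact ⟨e, he _ _ _ hd hc⟩

theorem dd_singleton_le {x : ℕ → ℕ} {h : Problem} {y : ℕ → ℕ} (hy : y ∈ h.dom) (hyx : TLe y x) :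
    dd {x} ≤ h := by
  obtain ⟨c, hc⟩ := hyx
  rw [dd_le_iff]
  refine ⟨c, ?_⟩
  rintro _ rfl
  exact ⟨y, hy, hc⟩

theorem exists_code_piecewise (k : Code) :
    ∃ c : Code, ∀ y z : ℕ → ℕ, App k y z → App c y (if z 0 = 0 then tail z else y) := by
  obtain ⟨i, hi⟩ := exists_code_id
  obtain ⟨j, hj⟩ := exists_code_join k i
  obtain ⟨s, hs⟩ := exists_code_shift
  obtain ⟨f, hf⟩ := exists_code_fst
  obtain ⟨g, hg⟩ := exists_code_snd
  obtain ⟨u, hu⟩ := exists_code_univ (fun e => if e < 1 then f else g)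
    (computable_modify (k := fun _ => g) (Computable.const g) (fun _ => f) 1)
  obtain ⟨a, ha⟩ := App.comp j s
  obtain ⟨b, hb⟩ := App.comp a u
  refine ⟨b, fun y z hyz => ?_⟩
  have h1 : App j y (join z y) := hj _ _ _ hyz (hi y)
  have h2 : App s (join z y) (cons (z 0) (join (tail z) y)) := by
    have := hs (z 0) (tail z) y
    rwa [cons_tail] at this
  have h3 := ha _ _ _ h1 h2
  refine hb _ _ _ h3 (hu _ _ _ ?_)
  by_cases h0 : z 0 = 0
  · simp only [h0, if_true, Nat.lt_one_iff]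
    exact hf _ _
  · simp only [h0, if_false, Nat.lt_one_iff]
    exact hg _ _

/-- minimal covers -/
theorem min_cover {U : Set (ℕ → ℕ)} {x : ℕ → ℕ} (hU : ∀ y, TLe x y → ¬ TLe y x → y ∈ U)
    {h : Problem} (h1 : dd U ≤ h) (h2 : h ≤ dd (JJ U {x})) : h ≤ dd U ∨ dd (JJ U {x}) ≤ h := by
  obtain ⟨k, hk⟩ := h2
  by_cases hex : ∃ y ∈ h.dom, TLe y x
  · obtain ⟨y, hy, hyx⟩ := hex
    exact Or.inr (JJ_le h1 (dd_singleton_le hy hyx))
  · left
    push Not at hex
    obtain ⟨c, hc⟩ := exists_code_piecewise k.1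
    refine ⟨(c, k.2), fun y hy => ?_⟩
    obtain ⟨z, hz, happ, h3⟩ := hk y hy
    refine ⟨_, ?_, hc y z happ, ?_⟩
    · rw [dd_dom] at hz ⊢
      rcases hz with ⟨h0, hz⟩ | ⟨h0, hz⟩
      · simp only [h0, if_true]; exact hz
      · simp only [h0, one_ne_zero, if_false]
        apply hU y _ (hex y hy)
        have h4 : TLe z y := ⟨_, happ⟩
        obtain ⟨t, ht⟩ := exists_code_tail
        have h5 : TLe (tail z) z := ⟨t, ht z⟩
        rw [Set.mem_singleton_iff.1 hz] at h5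
        exact h5.trans h4
    · intro w _
      rw [dd_dom] at hz
      exact h3 w hz

end Pool.Agent.Weih
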