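import Pool.Agent.Weih.Upper

set_option autoImplicit false

namespace Pool.Agent.Weih

open Nat.Partrec (Code)
open Encodable Cardinal

theorem problem_ext {f g : Problem} (h : ∀ x y, y ∈ f.sol x ↔ y ∈ g.sol x) : f = g := by
  cases f; cases g
  congr
  funext x
  ext y
  exact h x y

section

variable (S : ℕ → Set (ℕ → ℕ))

/-- union of the sets `S n` with `n ≤ ν` -/
def SS (v : ℕ∞) : Set (ℕ → ℕ) := {x | ∃ n : ℕ, (n : ℕ∞) ≤ v ∧ x ∈ S n}

/-- tagged sum of sets `SS S (μ e)` -/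
def FS (μ : ℕ → ℕ∞) : Set (ℕ → ℕ) := {x | tail x ∈ SS S (μ (x 0))}

/-- the corresponding class of problems -/
def GG : Set Problem := Set.range fun μ => dd (FS S μ)

variable {S}

theorem SS_mono {v w : ℕ∞} (h : v ≤ w) : SS S v ⊆ SS S w := by
  rintro x ⟨n, hn, hx⟩
  exact ⟨n, hn.trans h, hx⟩

theorem SS_nat (hS : Monotone S) (n : ℕ) : SS S n = S n := by
  ext x
  constructor
  · rintro ⟨m, hm, hx⟩
    exact hS (by exact_mod_cast hm) hx
  · intro hx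
    exact ⟨n, le_rfl, hx⟩

theorem SS_top : SS S ⊤ = ⋃ n, S n := by
  ext x
  simp [SS]

theorem mem_SS_sSup (h0 : S 0 = ∅) (X : Set ℕ∞) (x : ℕ → ℕ) :
    x ∈ SS S (sSup X) ↔ ∃ v ∈ X, x ∈ SS S v := by
  constructor
  · rintro ⟨n, hn, hx⟩
    cases n with
    | zero => rw [h0] at hx; exact absurd hx (Set.notMem_empty _)
    | succ n =>
      have h1 : (n : ℕ∞) < sSup X := by
        refine lt_of_lt_of_le ?_ hn
        exact_mod_cast Nat.lt_succ_self n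
      obtain ⟨v, hv, hnv⟩ := lt_sSup_iff.1 h1
      refine ⟨v, hv, n + 1, ?_, hx⟩
      have := Order.add_one_le_of_lt hnv
      exact_mod_cast this
  · rintro ⟨v, hv, hx⟩
    exact SS_mono (le_sSup hv) hx

theorem mem_SS_sInf {X : Set ℕ∞} (hX : X.Nonempty) (x : ℕ → ℕ) :
    x ∈ SS S (sInf X) ↔ ∀ v ∈ X, x ∈ SS S v := by
  constructor
  · intro hx v hv
    exact SS_mono (sInf_le hv) hx
  · intro h
    exact h _ (csInf_mem hX)

theorem GG_cl (hS : Monotone S) (h0 : S 0 = ∅) : Cl (GG S) where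
  zero := by
    refine ⟨fun _ => 0, problem_ext fun x y => ?_⟩
    have h1 := SS_nat hS 0
    rw [Nat.cast_zero] at h1
    show tail x ∈ SS S 0 ↔ y ∈ (∅ : Set (ℕ → ℕ))
    rw [h1, h0]
    simp
  sup := by
    intro A hA
    refine ⟨fun e => sSup {t | ∃ μ : ℕ → ℕ∞, dd (FS S μ) ∈ A ∧ t = μ e}, problem_ext fun x y => ?_⟩
    show tail x ∈ SS S (sSup {t | ∃ μ : ℕ → ℕ∞, dd (FS S μ) ∈ A ∧ t = μ (x 0)}) ↔ _
    rw [mem_SS_sSup h0]
    constructor
    · rintro ⟨v, ⟨μ, hμ, rfl⟩, hx⟩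
      refine ⟨⟨_, hμ, by rw [dd_dom]; exact hx⟩, fun f hf hxf => ?_⟩
      obtain ⟨μ', rfl⟩ := hA hf
      simp only [dd_dom] at hxf
      exact hxf
    · rintro ⟨⟨f, hf, hx⟩, -⟩
      obtain ⟨μ, rfl⟩ := hA hf
      simp only [dd_dom] at hx
      exact ⟨_, ⟨μ, hf, rfl⟩, hx⟩
  inf := by
    intro A hA hne
    refine ⟨fun e => sInf {t | ∃ μ : ℕ → ℕ∞, dd (FS S μ) ∈ A ∧ t = μ e}, problem_ext fun x y => ?_⟩
    show tail x ∈ SS S (sInf {t | ∃ μ : ℕ → ℕ∞, dd (FS S μ) ∈ A ∧ t = μ (x 0)}) ↔ _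
    obtain ⟨f0, hf0⟩ := hne
    obtain ⟨μ0, hμ0⟩ := hA hf0
    have hf0' : dd (FS S μ0) ∈ A := by
      have : dd (FS S μ0) = f0 := hμ0
      rw [this]; exact hf0
    have hne' : {t : ℕ∞ | ∃ μ : ℕ → ℕ∞, dd (FS S μ) ∈ A ∧ t = μ (x 0)}.Nonempty :=
      ⟨μ0 (x 0), μ0, hf0', rfl⟩
    rw [mem_SS_sInf hne']
    constructor
    · intro h
      have h' : ∀ g ∈ A, x ∈ g.dom := by
        intro g hg
        obtain ⟨μ, rfl⟩ := hA hg
        simp only [dd_dom]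
        exact h _ ⟨μ, hg, rfl⟩
      refine ⟨h', _, hf0', ?_⟩
      have := h' _ hf0'
      rw [dd_dom] at this
      exact this
    · rintro ⟨h, -⟩ v ⟨μ, hμ, rfl⟩
      have := h _ hμ
      rw [dd_dom] at this
      exact this
  tsum := by
    intro H hH
    choose μ hμ using hH
    have hdom : ∀ e, (H e).dom = FS S (μ e) := by
      intro e
      rw [← hμ e]
      exact dd_dom _
    refine ⟨dd (FS S (fun m => μ m.unpair.1 m.unpair.2)), ⟨_, rfl⟩, ?_, ?_⟩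
    · rw [dd_le_iff]
      obtain ⟨c, hc⟩ := exists_code_split
      refine ⟨c, fun x hx => ?_⟩
      refine ⟨cons (x 0).unpair.1 (cons (x 0).unpair.2 (tail x)), ?_, ?_⟩
      · rw [mem_tsum_dom, hdom]
        exact hx
      · have := hc (x 0).unpair.1 (x 0).unpair.2 (tail x)
        rwa [Nat.pair_unpair, cons_tail] at this
    · obtain ⟨c, hc⟩ := exists_code_merge
      obtain ⟨d, hd⟩ := exists_code_snd
      refine ⟨(c, d), fun x hx => ?_⟩
      rw [mem_tsum_dom, hdom] at hx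
      refine ⟨cons (Nat.pair (x 0) (tail x 0)) (tail (tail x)), ?_, ?_, ?_⟩
      · rw [dd_dom]
        show tail (tail x) ∈ SS S (μ (Nat.pair (x 0) (tail x 0)).unpair.1
          (Nat.pair (x 0) (tail x 0)).unpair.2)
        rw [Nat.unpair_pair]
        exact hx
      · have := hc (x 0) (tail x 0) (tail (tail x))
        rwa [cons_tail, cons_tail] at this
      · intro y _
        refine ⟨y, ?_, hd x y⟩
        rw [tsum_sol, ← hμ]
        exact hx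

theorem GG_card : #(GG S) ≤ 𝔠 := by
  refine (Cardinal.mk_range_le).trans ?_
  have : #(ℕ → ℕ∞) = 𝔠 := by
    rw [← Cardinal.power_def]
    have h1 : #ℕ∞ = ℵ₀ := by
      rw [Cardinal.mk_eq_aleph0]
    rw [h1, Cardinal.mk_nat]
    exact Cardinal.aleph0_power_aleph0
  rw [this]

theorem GG_small (hS : Monotone S) (h0 : S 0 = ∅) (b : Problem) (hb : b ∈ GG S) (w : ℕ → ℕ)
    (hw : w ∈ b.dom) :
    ∃ q ∈ GG S, Sub q b ∧ w ∈ q.dom ∧ q.sol w ⊆ b.sol w ∧ ∃ n : ℕ, q ≤ dd (S n) := by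
  obtain ⟨μ, rfl⟩ := hb
  simp only [dd_dom] at hw
  obtain ⟨n, hn, hx⟩ := hw
  have h00 : SS S 0 = ∅ := by
    have h1 := SS_nat hS 0
    rw [Nat.cast_zero] at h1
    rw [h1, h0]
  set μ' : ℕ → ℕ∞ := fun e => if e = w 0 then (n : ℕ∞) else 0 with hμ'
  have hmem : ∀ x, x ∈ FS S μ' ↔ x 0 = w 0 ∧ tail x ∈ S n := by
    intro x
    unfold FS
    simp only [Set.mem_ofPred_eq, hμ']
    by_cases h : x 0 = w 0
    · simp [h, SS_nat hS n]
    · simp [h, h00]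
  have hsub : FS S μ' ⊆ FS S μ := by
    intro x hx'
    obtain ⟨h1, h2⟩ := (hmem x).1 hx'
    refine ⟨n, ?_, h2⟩
    rw [h1]; exact hn
  refine ⟨dd (FS S μ'), ⟨μ', rfl⟩, dd_sub_iff hsub, ?_, ?_, n, ?_⟩
  · rw [dd_dom]; exact (hmem w).2 ⟨rfl, hx⟩
  · intro y hy
    exact hsub hy
  · rw [dd_le_iff]
    obtain ⟨c, hc⟩ := exists_code_tail
    refine ⟨c, fun x hx' => ⟨tail x, ?_, hc x⟩⟩
    rw [dd_dom]
    exact ((hmem x).1 hx').2

/-- **Local lemma.** -/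
theorem good_local (hS : Monotone S) (h0 : S 0 = ∅) :
    Good {h | (∀ n, dd (S n) ≤ h) ∧ h ≤ dd (⋃ n, S n)} := by
  obtain ⟨C, hCQ, hCch, hCmax⟩ := exists_max_chain
    {h | h ∈ GG S ∧ (∀ n, dd (S n) ≤ h) ∧ h ≤ dd (⋃ n, S n)}
  refine ⟨C, fun f hf => (hCQ hf).2, ?_, hCch, ?_⟩
  · exact (Cardinal.mk_le_mk_of_subset (fun f hf => (hCQ hf).1)).trans GG_card
  intro h hh hcomp
  by_contra hne
  push Not at hne
  -- elements of `GG S` equivalent to `dd (SS S v)`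
  have h00 : SS S 0 = ∅ := by
    have h1 := SS_nat hS 0
    rw [Nat.cast_zero] at h1
    rw [h1, h0]
  have hD : ∀ v : ℕ∞, ∃ D ∈ GG S, D ≤ dd (SS S v) ∧ dd (SS S v) ≤ D := by
    intro v
    set μ' : ℕ → ℕ∞ := fun e => if e = 0 then v else 0 with hμ'
    have hmem : ∀ x, x ∈ FS S μ' ↔ x 0 = 0 ∧ tail x ∈ SS S v := by
      intro x
      unfold FS
      simp only [Set.mem_ofPred_eq, hμ']
      by_cases h : x 0 = 0
      · simp [h]
      · simp [h, h00]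
    refine ⟨dd (FS S μ'), ⟨μ', rfl⟩, ?_, ?_⟩
    · rw [dd_le_iff]
      obtain ⟨c, hc⟩ := exists_code_tail
      refine ⟨c, fun x hx' => ⟨tail x, ?_, hc x⟩⟩
      rw [dd_dom]
      exact ((hmem x).1 hx').2
    · rw [dd_le_iff]
      obtain ⟨c, hc⟩ := exists_code_cons 0
      refine ⟨c, fun x hx' => ⟨cons 0 x, ?_, hc x⟩⟩
      rw [dd_dom]
      exact (hmem _).2 ⟨rfl, hx'⟩
  choose D hDG hD1 hD2 using hD
  have hDn1 : ∀ n : ℕ, D n ≤ dd (S n) := fun n => by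
    have := hD1 n
    rwa [SS_nat hS] at this
  have hDn2 : ∀ n : ℕ, dd (S n) ≤ D n := fun n => by
    have := hD2 n
    rwa [SS_nat hS] at this
  have hDt1 : D ⊤ ≤ dd (⋃ n, S n) := by
    have := hD1 ⊤
    rwa [SS_top] at this
  have hDt2 : dd (⋃ n, S n) ≤ D ⊤ := by
    have := hD2 ⊤
    rwa [SS_top] at this
  have hDtC : D ⊤ ∈ C := by
    apply hCmax
    · refine ⟨hDG ⊤, fun n => ?_, hDt1⟩
      exact (dd_mono (Set.subset_iUnion S n)).trans hDt2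
    · intro c hc
      exact Or.inr ((hCQ hc).2.2.trans hDt2)
  set L : Set Problem := {f | f ∈ C ∧ f ≤ h} ∪ {f | ∃ n : ℕ, f = D n} with hLdef
  set R : Set Problem := {f | f ∈ C ∧ h ≤ f} with hRdef
  have hLh : ∀ f ∈ L, f ≤ h ∧ ¬ h ≤ f := by
    rintro f (hf | ⟨n, rfl⟩)
    · exact ⟨hf.2, fun hle => hne f hf.1 hle hf.2⟩
    · refine ⟨(hDn1 n).trans (hh.1 n), fun hle => ?_⟩
      have hDC : D n ∈ C := by
        apply hCmax
        · refine ⟨hDG n, fun m => (hh.1 m).trans hle, ?_⟩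
          exact (hDn1 n).trans (dd_mono (Set.subset_iUnion S n))
        · intro c hc
          exact Or.inl ((hDn1 n).trans ((hCQ hc).2.1 n))
      exact hne _ hDC hle ((hDn1 n).trans (hh.1 n))
  have hRh : ∀ f ∈ R, h ≤ f ∧ ¬ f ≤ h := fun f hf => ⟨hf.2, fun hle => hne f hf.1 hf.2 hle⟩
  have hDmono : ∀ m n : ℕ, m ≤ n → D m ≤ D n := fun m n hmn =>
    (hDn1 m).trans ((dd_mono (hS hmn)).trans (hDn2 n))
  have hLch : Chn L := by
    rintro f (hf | ⟨n, rfl⟩) g (hg | ⟨m, rfl⟩)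
    · exact hCch f hf.1 g hg.1
    · exact Or.inr ((hDn1 m).trans ((hCQ hf.1).2.1 m))
    · exact Or.inl ((hDn1 n).trans ((hCQ hg.1).2.1 n))
    · rcases le_total n m with h1 | h1
      · exact Or.inl (hDmono _ _ h1)
      · exact Or.inr (hDmono _ _ h1)
  have hRch : Chn R := fun f hf g hg => hCch f hf.1 g hg.1
  have hR : R.Nonempty := ⟨D ⊤, hDtC, hh.2.trans hDt2⟩
  obtain ⟨g, hgG, hgL, hgR⟩ := fill (GG_cl hS h0) (L := L) (R := R) (by
      rintro f (hf | ⟨n, rfl⟩)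
      · exact (hCQ hf.1).1
      · exact hDG n) (fun f hf => (hCQ hf.1).1)
    hLch hRch hR (by
      intro b hb w hw
      obtain ⟨q, h1, h2, h3, h4, n, h5⟩ := GG_small hS h0 b (hCQ hb.1).1 w hw
      exact ⟨q, h1, h2, h3, h4, D n, Or.inr ⟨n, rfl⟩, h5.trans (hDn2 n)⟩) hLh hRh
  have hgC : g ∈ C := by
    apply hCmax
    · refine ⟨hgG, fun n => (hDn2 n).trans (hgL _ (Or.inr ⟨n, rfl⟩)).1, ?_⟩
      exact (hgR _ ⟨hDtC, hh.2.trans hDt2⟩).1.trans hDt1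
    · intro c hc
      rcases hcomp c hc with h1 | h1
      · exact Or.inl (hgR c ⟨hc, h1⟩).1
      · exact Or.inr (hgL c (Or.inl ⟨hc, h1⟩)).1
  rcases hcomp g hgC with h1 | h1
  · exact (hgR g ⟨hgC, h1⟩).2 le_rfl
  · exact (hgL g (Or.inl ⟨hgC, h1⟩)).2 le_rfl

end

end Pool.Agent.Weih
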