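import Pool.Agent.Weih.Embed

set_option autoImplicit false

/-!
# Long chains in the Weihrauch degrees
-/

namespace Pool.Agent.Weih

open Cardinal

section

variable {I : Type} [LinearOrder I] [WellFoundedLT I]

/-- the nodes of the tree of sequences along `I` -/
abbrev Node (I : Type) [LinearOrder I] : Type := Σ i : I, ({j : I // j < i} → Bool)

/-- the sequence `s⌢1⌢000...` -/
def ext (t : Node I) : I → Bool := fun j =>
  if h : j < t.1 then t.2 ⟨j, h⟩ else decide (j = t.1)

/-- the nodes below a branch -/
def below (a : I → Bool) : Set (Node I) := {t | toLex (ext t) ≤ toLex a}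

omit [WellFoundedLT I] in
theorem below_mono {a b : I → Bool} (h : toLex a ≤ toLex b) : below a ⊆ below b :=
  fun _ ht => le_trans ht h

theorem below_strict {a b : I → Bool} (h : toLex a < toLex b) : ∃ t, t ∈ below b ∧ t ∉ below a := by
  obtain ⟨i, h1, h2⟩ := h
  have h1' : ∀ j < i, a j = b j := h1
  have h2' : a i < b i := h2
  have ha : a i = false := by
    cases hb : a i
    · rfl
    · rw [hb] at h2'
      exact absurd h2' (by cases b i <;> decide)
  have hb : b i = true := by
    cases hb : b i
    · rw [ha, hb] at h2'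
      exact absurd h2' (lt_irrefl _)
    · rfl
  let t : Node I := ⟨i, fun j => a j.1⟩
  have e1 : ∀ j < i, ext t j = a j := fun j hj => by
    show (if h : j < i then a j else decide (j = i)) = a j
    rw [dif_pos hj]
  have e2 : ext t i = true := by
    show (if h : i < i then a i else decide (i = i)) = true
    rw [dif_neg (lt_irrefl i)]
    simp
  have e3 : ∀ j, i < j → ext t j = false := fun j hj => by
    show (if h : j < i then a j else decide (j = i)) = false
    rw [dif_neg (not_lt.2 hj.le)]
    simp [hj.ne']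
  refine ⟨t, ?_, ?_⟩
  · show toLex (ext t) ≤ toLex b
    rw [← not_lt]
    rintro ⟨j, h3, h4⟩
    have h4' : b j < ext t j := h4
    rcases lt_trichotomy j i with hj | hj | hj
    · rw [e1 j hj, h1' j hj] at h4'
      exact lt_irrefl _ h4'
    · subst hj
      rw [hb, e2] at h4'
      exact lt_irrefl _ h4'
    · rw [e3 j hj] at h4'
      exact absurd h4' (by cases b j <;> decide)
  · show ¬ toLex (ext t) ≤ toLex a
    rw [not_le]
    refine ⟨i, fun j hj => (e1 j hj).symm, ?_⟩
    show a i < ext t i
    rw [ha, e2]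
    decide

theorem below_injective : Function.Injective (below : (I → Bool) → Set (Node I)) := by
  intro a b hab
  rcases lt_trichotomy (toLex a) (toLex b) with h | h | h
  · obtain ⟨t, h1, h2⟩ := below_strict h
    rw [← hab] at h1
    exact absurd h1 h2
  · exact toLex.injective h
  · obtain ⟨t, h1, h2⟩ := below_strict h
    rw [hab] at h1
    exact absurd h1 h2

theorem below_total (a b : I → Bool) : below a ⊆ below b ∨ below b ⊆ below a :=
  (le_total (toLex a) (toLex b)).imp below_mono below_mono

end

/-- if `2 ^ ν ≤ 𝔠` for all `ν < μ`, then the Weihrauch degrees have a chain of size `2 ^ μ` -/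
theorem exists_long_chain (μ : Cardinal.{0}) (h : ∀ ν < μ, (2 : Cardinal) ^ ν ≤ 𝔠) :
    ∃ C : Set Degree, IsChain (· ≤ ·) C ∧ #C = 2 ^ μ := by
  have hμ : μ ≤ 𝔠 := by
    by_contra hcon
    have h1 := h 𝔠 (not_le.1 hcon)
    exact absurd (Cardinal.cantor 𝔠) (not_lt.2 h1)
  let I : Type := μ.ord.ToType
  have hI : #I = μ := Cardinal.mk_ord_toType μ
  have hnode : #(Node I) ≤ #ℝ := by
    rw [Cardinal.mk_sigma, Cardinal.mk_real]
    refine (Cardinal.sum_le_sum _ (fun _ : I => 𝔠) fun i => ?_).trans ?_
    · have h1 : #({j : I // j < i} → Bool) = 2 ^ #{j : I // j < i} := by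
        simp
      rw [h1]
      exact h _ (Cardinal.mk_Iio_toType_ord_lt i)
    · rw [Cardinal.sum_const', hI]
      exact (mul_le_mul_left hμ _).trans (by rw [Cardinal.continuum_mul_self])
  obtain ⟨e⟩ := (Cardinal.le_def _ _).1 hnode
  obtain ⟨G⟩ := exists_set_embedding
  let F : (I → Bool) → Degree := fun a => G (e '' below a)
  have hF : Function.Injective F := fun a b hab =>
    below_injective (Set.image_injective.2 e.injective (G.injective hab))
  refine ⟨Set.range F, ?_, ?_⟩
  · rintro _ ⟨a, rfl⟩ _ ⟨b, rfl⟩ -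
    rcases below_total a b with h1 | h1
    · exact Or.inl (G.monotone (Set.image_mono h1))
    · exact Or.inr (G.monotone (Set.image_mono h1))
  · rw [Cardinal.mk_range_eq _ hF]
    simp [hI]

/-- the Weihrauch degrees have a chain with more than `𝔠` elements -/
theorem exists_chain_gt : ∃ C : Set Degree, IsChain (· ≤ ·) C ∧ 𝔠 < #C := by
  let μ : Cardinal.{0} := sInf {μ : Cardinal.{0} | 𝔠 < (2 : Cardinal) ^ μ}
  have hμ : 𝔠 < (2 : Cardinal) ^ μ :=
    csInf_mem (s := {μ : Cardinal.{0} | 𝔠 < (2 : Cardinal) ^ μ}) ⟨𝔠, Cardinal.cantor 𝔠⟩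
  obtain ⟨C, hC, hC'⟩ := exists_long_chain μ fun ν hν => by
    by_contra hcon
    exact notMem_of_lt_csInf' hν (not_le.1 hcon)
  exact ⟨C, hC, by rw [hC']; exact hμ⟩

end Pool.Agent.Weih
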