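import Pool.Agent.Weih.Limit

set_option autoImplicit false

namespace Pool.Agent.Weih

open Nat.Partrec (Code)
open Encodable Cardinal

/-- a copy of Baire space, to be well-ordered -/
structure WO where
  val : ℕ → ℕ

noncomputable instance : LinearOrder WO := (exists_wellFoundedLT WO).choose

instance : WellFoundedLT WO := (exists_wellFoundedLT WO).choose_spec

theorem card_WO : #WO = 𝔠 := by
  have e : WO ≃ (ℕ → ℕ) := ⟨WO.val, WO.mk, fun _ => rfl, fun _ => rfl⟩
  rw [Cardinal.mk_congr e, ← Cardinal.power_def, Cardinal.mk_nat]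
  exact Cardinal.aleph0_power_aleph0

/-- a copy of Baire space, preordered by Turing reducibility -/
structure TB where
  val : ℕ → ℕ

instance : Preorder TB where
  le a b := TLe a.val b.val
  le_refl a := TLe.refl a.val
  le_trans _ _ _ := TLe.trans

/-- the place of the Turing degree of `x` in a fixed linear extension -/
noncomputable def qq (x : ℕ → ℕ) : LinearExtension (Antisymmetrization TB (· ≤ ·)) :=
  toLinearExtension (toAntisymmetrization (· ≤ ·) (⟨x⟩ : TB))

theorem qq_mono {x y : ℕ → ℕ} (h : TLe x y) : qq x ≤ qq y := by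
  apply toLinearExtension.monotone
  exact h

theorem qq_eq {x y : ℕ → ℕ} (h : qq x = qq y) : TLe x y := by
  have h' : toAntisymmetrization (· ≤ ·) (⟨x⟩ : TB) = toAntisymmetrization (· ≤ ·) (⟨y⟩ : TB) := h
  exact (Quotient.exact h').1

noncomputable def rho (x : ℕ → ℕ) : WO :=
  WellFounded.min (wellFounded_lt (α := WO)) {w : WO | TLe x w.val} ⟨⟨x⟩, TLe.refl x⟩

theorem rho_spec (x : ℕ → ℕ) : TLe x (rho x).val :=
  WellFounded.min_mem (wellFounded_lt (α := WO)) {w : WO | TLe x w.val} ⟨⟨x⟩, TLe.refl x⟩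

theorem rho_le {x : ℕ → ℕ} {w : WO} (h : TLe x w.val) : rho x ≤ w :=
  not_lt.1 (WellFounded.not_lt_min (wellFounded_lt (α := WO)) {w : WO | TLe x w.val} h)

theorem rho_mono {x y : ℕ → ℕ} (h : TLe x y) : rho x ≤ rho y :=
  rho_le (h.trans (rho_spec y))

/-- a linear preorder of Baire space extending Turing reducibility, with few cuts -/
noncomputable def key (x : ℕ → ℕ) :
    WO ×ₗ LinearExtension (Antisymmetrization TB (· ≤ ·)) := toLex (rho x, qq x)

theorem key_mono {x y : ℕ → ℕ} (h : TLe x y) : key x ≤ key y := by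
  rw [Prod.Lex.le_iff]
  rcases (rho_mono h).lt_or_eq with h1 | h1
  · exact Or.inl h1
  · exact Or.inr ⟨h1, qq_mono h⟩

theorem key_eq {x y : ℕ → ℕ} (h : key x = key y) : TLe x y := by
  have h1 : (rho x, qq x) = (rho y, qq y) := toLex.injective h
  exact qq_eq (Prod.ext_iff.1 h1).2

theorem key_lt {x y : ℕ → ℕ} (h : TLe x y) (h' : ¬ TLe y x) : key x < key y :=
  lt_of_le_of_ne (key_mono h) fun he => h' (key_eq he.symm)

theorem key_lt_of_rho {x y : ℕ → ℕ} (h : rho x < rho y) : key x < key y := by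
  rw [Prod.Lex.lt_iff]
  exact Or.inl h

/-- final segments -/
def Seg := {T : Set (ℕ → ℕ) // ∀ x ∈ T, ∀ y, key x ≤ key y → y ∈ T}

noncomputable instance : LinearOrder Seg where
  le S T := S.1 ⊆ T.1
  le_refl _ := subset_rfl
  le_trans _ _ _ := Set.Subset.trans
  le_antisymm _ _ h1 h2 := Subtype.ext (Set.Subset.antisymm h1 h2)
  le_total S T := by
    by_contra hcon
    push Not at hcon
    obtain ⟨h1, h2⟩ := hcon
    obtain ⟨x, hxS, hxT⟩ := Set.not_subset.1 h1
    obtain ⟨y, hyT, hyS⟩ := Set.not_subset.1 h2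
    rcases le_total (key x) (key y) with h | h
    · exact hyS (S.2 x hxS y h)
    · exact hxT (T.2 y hyT x h)
  toDecidableLE := Classical.decRel _

theorem Seg.le_def {S T : Seg} : S ≤ T ↔ S.1 ⊆ T.1 := Iff.rfl

theorem card_Seg : #Seg ≤ 𝔠 := by
  classical
  let w : Seg → WO := fun T =>
    if h : (rho '' T.1).Nonempty then WellFounded.min (wellFounded_lt (α := WO)) (rho '' T.1) h
    else ⟨fun _ => 0⟩
  have hw1 : ∀ T : Seg, T.1.Nonempty → ∃ x ∈ T.1, rho x = w T := by
    intro T hT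
    have h : (rho '' T.1).Nonempty := hT.image _
    have h2 := WellFounded.min_mem (wellFounded_lt (α := WO)) (rho '' T.1) h
    have h3 : w T = WellFounded.min (wellFounded_lt (α := WO)) (rho '' T.1) h := dif_pos h
    rw [h3]
    exact h2
  have hw2 : ∀ T : Seg, ∀ x ∈ T.1, w T ≤ rho x := by
    intro T x hx
    have h : (rho '' T.1).Nonempty := ⟨_, x, hx, rfl⟩
    have h3 : w T = WellFounded.min (wellFounded_lt (α := WO)) (rho '' T.1) h := dif_pos h
    rw [h3]
    exact not_lt.1 (WellFounded.not_lt_min (wellFounded_lt (α := WO)) (rho '' T.1) ⟨x, hx, rfl⟩)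
  let A : Seg → Set Code := fun T => {c | ∃ x ∈ T.1, rho x = w T ∧ App c (w T).val x}
  have hA1 : ∀ T : Seg, T.1.Nonempty → (A T).Nonempty := by
    intro T hT
    obtain ⟨x, hx, hxw⟩ := hw1 T hT
    obtain ⟨c, hc⟩ := rho_spec x
    rw [hxw] at hc
    exact ⟨c, x, hx, hxw, hc⟩
  have hT : ∀ T : Seg, T.1.Nonempty → ∀ y, y ∈ T.1 ↔
      (w T < rho y ∨ (rho y = w T ∧ ∃ c ∈ A T, App c (w T).val y)) := by
    intro T hT y
    constructor
    · intro hy
      rcases (hw2 T y hy).lt_or_eq with h | h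
      · exact Or.inl h
      · refine Or.inr ⟨h.symm, ?_⟩
        obtain ⟨c, hc⟩ := rho_spec y
        rw [← h] at hc
        exact ⟨c, ⟨y, hy, h.symm, hc⟩, hc⟩
    · rintro (h | ⟨-, c, ⟨x, hx, -, hcx⟩, hc⟩)
      · obtain ⟨x, hx, hxw⟩ := hw1 T hT
        rw [← hxw] at h
        exact T.2 x hx y (key_lt_of_rho h).le
      · rw [App.unique hc hcx]; exact hx
  have hinj : Function.Injective (fun T : Seg => (w T, A T)) := by
    intro S T hST
    simp only [Prod.mk.injEq] at hST
    obtain ⟨h1, h2⟩ := hST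
    apply Subtype.ext
    by_cases hS : S.1.Nonempty
    · have hTn : T.1.Nonempty := by
        obtain ⟨c, hc⟩ := hA1 S hS
        rw [h2] at hc
        obtain ⟨x, hx, -⟩ := hc
        exact ⟨x, hx⟩
      ext y
      rw [hT S hS y, hT T hTn y, h1, h2]
    · have hTn : ¬ T.1.Nonempty := by
        intro hTn
        obtain ⟨c, hc⟩ := hA1 T hTn
        rw [← h2] at hc
        obtain ⟨x, hx, -⟩ := hc
        exact hS ⟨x, hx⟩
      rw [Set.not_nonempty_iff_eq_empty] at hS hTn
      rw [hS, hTn]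
  refine (Cardinal.mk_le_of_injective hinj).trans ?_
  rw [Cardinal.mk_prod, Cardinal.lift_id, Cardinal.lift_id, card_WO, Cardinal.mk_set,
    Cardinal.mk_eq_aleph0 Code, Cardinal.two_power_aleph0, Cardinal.continuum_mul_self]

theorem Seg.up {T : Seg} {x y : ℕ → ℕ} (hx : x ∈ T.1) (h : TLe x y) : y ∈ T.1 :=
  T.2 x hx y (key_mono h)

theorem dom_subset {T : Seg} {h : Problem} (hT : h ≤ dd T.1) : h.dom ⊆ T.1 := by
  intro x hx
  obtain ⟨k, hk⟩ := hT
  obtain ⟨z, hz, happ, -⟩ := hk x hx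
  rw [dd_dom] at hz
  exact Seg.up hz ⟨_, happ⟩

theorem le_dd_of_dom {S : Set (ℕ → ℕ)} {h : Problem} (h1 : h ≤ dd Set.univ) (h2 : h.dom ⊆ S) :
    h ≤ dd S := by
  obtain ⟨k, hk⟩ := h1
  obtain ⟨c, hc⟩ := exists_code_id
  refine ⟨(c, k.2), fun x hx => ?_⟩
  obtain ⟨z, hz, happ, h3⟩ := hk x hx
  exact ⟨x, by rw [dd_dom]; exact h2 hx, hc x, fun y _ => h3 y (by trivial)⟩

theorem good_point {U E : Set (ℕ → ℕ)} {z0 : ℕ → ℕ} (hz : dd {z0} ≤ dd (JJ U E)) :
    Good {h | dd (JJ U E) ≤ h ∧ h ≤ dd (JJ U (E ∪ {z0}))} := by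
  let K : ℕ → Set (ℕ → ℕ) := fun n => {z0} ∪ {y | y ∈ E ∧ seg y n ≠ seg z0 n}
  let S : ℕ → Set (ℕ → ℕ) := fun n => Nat.casesOn n ∅ (fun n => JJ (JJ U E) (K n))
  have hK : Monotone K := by
    intro m n hmn
    apply Set.union_subset_union_right
    rintro y ⟨hy, hne⟩
    refine ⟨hy, fun he => hne ?_⟩
    have h1 : (seg y n).take m = (seg z0 n).take m := by rw [he]
    rwa [seg_take, seg_take, min_eq_left hmn] at h1
  have hS : Monotone S := by
    refine monotone_nat_of_le_succ fun n => ?_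
    cases n with
    | zero => exact Set.empty_subset _
    | succ n => exact JJ_mono (hK (Nat.le_succ n))
  have hKE : ∀ n, K n ⊆ E ∪ {z0} := by
    rintro n y (hy | hy)
    · exact Or.inr hy
    · exact Or.inl hy.1
  have hEK : ∀ y ∈ E ∪ {z0}, ∃ n, y ∈ K n := by
    rintro y (hy | hy)
    · by_cases hyz : y = z0
      · exact ⟨0, Or.inl hyz⟩
      · obtain ⟨i, hi⟩ := Function.ne_iff.1 hyz
        refine ⟨i + 1, Or.inr ⟨hy, fun he => hi ?_⟩⟩
        have h1 := seg_getI y (Nat.lt_succ_self i)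
        have h2 := seg_getI z0 (Nat.lt_succ_self i)
        rw [← h1, ← h2]
        show (seg y (i + 1)).getI i = (seg z0 (i + 1)).getI i
        rw [he]
    · exact ⟨0, Or.inl hy⟩
  have hU : (⋃ n, S n) = JJ (JJ U E) (E ∪ {z0}) := by
    ext w
    rw [Set.mem_iUnion]
    constructor
    · rintro ⟨n, hn⟩
      cases n with
      | zero => exact absurd hn (Set.notMem_empty _)
      | succ n => exact JJ_mono (hKE n) hn
    · rintro (hw | ⟨h0, hw⟩)
      · exact ⟨1, Or.inl hw⟩
      · obtain ⟨n, hn⟩ := hEK _ hw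
        exact ⟨n + 1, Or.inr ⟨h0, hn⟩⟩
  have key := good_local hS rfl
  rw [hU] at key
  have hKle : ∀ n, dd (K n) ≤ dd (JJ U E) := by
    intro n
    obtain ⟨c0, hc0⟩ := dd_le_iff.1 hz
    obtain ⟨z', hz', happ'⟩ := hc0 z0 rfl
    obtain ⟨c1, hc1⟩ := exists_code_cons 1
    obtain ⟨d, hd⟩ := exists_code_decide (seg z0 n)
    obtain ⟨u, hu⟩ := exists_code_univ (fun e => if e < 1 then c0 else c1)
      (computable_modify (k := fun _ => c1) (Computable.const c1) (fun _ => c0) 1)
    obtain ⟨v, hv⟩ := App.comp d u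
    rw [dd_le_iff]
    refine ⟨v, fun y hy => ?_⟩
    by_cases hyn : seg y (seg z0 n).length = seg z0 n
    · have hy0 : y = z0 := by
        rcases hy with hy | hy
        · exact hy
        · rw [seg_length] at hyn
          exact absurd hyn hy.2
      subst hy0
      refine ⟨z', hz', hv _ _ _ (hd y) (hu _ _ _ ?_)⟩
      simp only [hyn, if_true, Nat.lt_one_iff]
      exact happ'
    · have hyE : y ∈ E := by
        rcases hy with hy | hy
        · exfalso
          apply hyn
          rw [Set.mem_singleton_iff.1 hy, seg_length]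
        · exact hy.1
      refine ⟨cons 1 y, by rw [dd_dom]; exact Or.inr ⟨rfl, hyE⟩, hv _ _ _ (hd y) (hu _ _ _ ?_)⟩
      simp only [hyn, if_false, Nat.lt_one_iff, one_ne_zero]
      exact hc1 y
  have e1 : ∀ h : Problem, (∀ n, dd (S n) ≤ h) ↔ dd (JJ U E) ≤ h := by
    intro h
    constructor
    · intro hh
      exact (le_JJ_left (JJ U E) (K 0)).trans (hh 1)
    · intro hh n
      cases n with
      | zero => exact (dd_mono (Set.empty_subset _)).trans hh
      | succ n => exact JJ_le hh ((hKle n).trans hh)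
  have e2 : dd (JJ (JJ U E) (E ∪ {z0})) ≤ dd (JJ U (E ∪ {z0})) := by
    refine JJ_le (dd_mono (JJ_mono Set.subset_union_left)) (le_JJ_right _ _)
  have e3 : dd (JJ U (E ∪ {z0})) ≤ dd (JJ (JJ U E) (E ∪ {z0})) := by
    refine JJ_le ((le_JJ_left U E).trans (le_JJ_left _ _)) (le_JJ_right _ _)
  convert key using 1
  ext h
  simp only [Set.mem_ofPred_eq]
  rw [e1]
  exact ⟨fun hh => ⟨hh.1, hh.2.trans e3⟩, fun hh => ⟨hh.1, hh.2.trans e2⟩⟩

end Pool.Agent.Weih
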