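import Pool.Agent.Weih.Lower

set_option autoImplicit false

namespace Pool.Agent.Weih

open Nat.Partrec (Code)
open Encodable Cardinal

theorem one_le_continuum' : (1 : Cardinal) ≤ 𝔠 :=
  (Cardinal.one_lt_aleph0.trans Cardinal.aleph0_lt_continuum).le

theorem card_pair_le (f g : Problem) : #({f, g} : Set Problem) ≤ 𝔠 := by
  refine (Cardinal.mk_le_aleph0_iff.2 ?_).trans Cardinal.aleph0_lt_continuum.le
  exact (Set.toFinite ({f, g} : Set Problem)).countable.to_subtype

theorem card_single_le (f : Problem) : #({f} : Set Problem) ≤ 𝔠 := by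
  rw [Cardinal.mk_singleton]; exact one_le_continuum'

theorem chn_single (f : Problem) : Chn {f} := by
  rintro g rfl g' rfl
  exact Or.inl le_rfl

theorem good_congr {P Q : Set Problem} (h : Good Q) (e : ∀ f, f ∈ P ↔ f ∈ Q) : Good P := by
  have : P = Q := Set.ext e
  rw [this]; exact h

theorem good_jump (x : ℕ → ℕ) :
    Good {h | dd {y | key x < key y} ≤ h ∧ h ≤ dd {y | key x ≤ key y}} := by
  set U : Set (ℕ → ℕ) := {y | key x < key y} with hU
  set T : Set (ℕ → ℕ) := {y | key x ≤ key y} with hT
  have hUT : U ⊆ T := by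
    intro y hy
    have h1 : key x < key y := hy
    exact h1.le
  have hxT : x ∈ T := (le_refl (key x) : key x ≤ key x)
  let B : WithTop WO → Set (ℕ → ℕ) := fun i => {z | z ∈ T ∧ ((⟨z⟩ : WO) : WithTop WO) < i}
  have hB : Monotone B := fun i j hij z hz => ⟨hz.1, hz.2.trans_le hij⟩
  have hBT : ∀ i, B i ⊆ T := fun i z hz => hz.1
  let E : WithTop WO → Set (ℕ → ℕ) := fun i => {x} ∪ B i
  have hE : Monotone E := fun i j hij => Set.union_subset_union_right _ (hB hij)
  have hET : ∀ i, E i ⊆ T := by
    rintro i z (hz | hz)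
    · rw [Set.mem_singleton_iff.1 hz]; exact hxT
    · exact hBT i hz
  have hcov : ∀ y, TLe x y → ¬ TLe y x → y ∈ U := fun y h1 h2 => key_lt h1 h2
  -- every point of `T` is below `JJ U {x}`
  have hpt : ∀ z ∈ T, ∀ i, dd {z} ≤ dd (JJ U (E i)) := by
    intro z hz i
    rcases lt_or_eq_of_le (show key x ≤ key z from hz) with h | h
    · refine (dd_mono ?_).trans (le_JJ_left U (E i))
      rintro _ rfl
      exact h
    · have h1 : TLe x z := key_eq h
      refine (dd_singleton_le (y := x) ?_ h1).trans (le_JJ_right U (E i))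
      rw [dd_dom]
      exact Or.inl rfl
  refine glue (I := WithTop WO) ?_ (fun i => dd (JJ U (E i))) ?_ _ ?_ ?_ ?_
  · have h1 : #(WithTop WO) = #WO + 1 := by
      show #(Option WO) = #WO + 1
      exact Cardinal.mk_option
    rw [h1, card_WO, Cardinal.add_one_eq Cardinal.aleph0_le_continuum]
  · intro i j hij
    exact dd_mono (JJ_mono (hE hij))
  · intro i
    by_cases hmin : ∀ j, ¬ j < i
    · -- minimal
      have hBi : B i = ∅ := by
        ext z
        simp only [Set.mem_empty_iff_false, iff_false]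
        rintro ⟨-, hz⟩
        exact hmin _ hz
      have hEi : E i = {x} := by
        show {x} ∪ B i = {x}
        rw [hBi, Set.union_empty]
      refine good_of_small {dd U, dd (JJ U (E i))} ?_ (card_pair_le _ _) ?_ ?_
      · rintro f (rfl | hf)
        · exact ⟨⟨le_rfl, dd_mono hUT⟩, fun j hj => absurd hj (hmin j), le_JJ_left _ _⟩
        · rw [Set.mem_singleton_iff.1 hf]
          exact ⟨⟨le_JJ_left _ _, JJ_le (dd_mono hUT) (dd_mono (hET i))⟩,
            fun j hj => absurd hj (hmin j), le_rfl⟩
      · have h1 : dd U ≤ dd (JJ U (E i)) := le_JJ_left _ _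
        rintro f (rfl | hf) g (rfl | hg)
        · exact Or.inl le_rfl
        · rw [Set.mem_singleton_iff.1 hg]; exact Or.inl h1
        · rw [Set.mem_singleton_iff.1 hf]; exact Or.inr h1
        · rw [Set.mem_singleton_iff.1 hf, Set.mem_singleton_iff.1 hg]; exact Or.inl le_rfl
      · rintro h ⟨⟨h1, -⟩, -, h2⟩
        rw [hEi] at h2 ⊢
        rcases min_cover hcov h1 h2 with h3 | h3
        · exact ⟨dd U, Or.inl rfl, h3, h1⟩
        · exact ⟨_, Or.inr rfl, h2, h3⟩
    · push Not at hmin
      obtain ⟨j0, hj0⟩ := hmin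
      by_cases hmax : ∃ j < i, ∀ j' < i, j' ≤ j
      · -- successor
        obtain ⟨j, hji, hj⟩ := hmax
        have hjtop : j ≠ ⊤ := fun he => by
          rw [he] at hji
          exact absurd hji not_top_lt
        obtain ⟨⟨z0⟩, rfl⟩ := WithTop.ne_top_iff_exists.1 hjtop
        have hBi : ∀ z, z ∈ B i ↔ z ∈ B ((⟨z0⟩ : WO) : WithTop WO) ∨ (z ∈ T ∧ z = z0) := by
          intro z
          constructor
          · rintro ⟨hz1, hz2⟩
            rcases lt_or_eq_of_le (hj _ hz2) with h | h
            · exact Or.inl ⟨hz1, h⟩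
            · have h1 : (⟨z⟩ : WO) = ⟨z0⟩ := WithTop.coe_injective h
              exact Or.inr ⟨hz1, congrArg WO.val h1⟩
          · rintro (⟨hz1, hz2⟩ | ⟨hz1, rfl⟩)
            · exact ⟨hz1, hz2.trans hji⟩
            · exact ⟨hz1, hji⟩
        by_cases hz0 : z0 ∈ T
        · have hEi : E i = E ((⟨z0⟩ : WO) : WithTop WO) ∪ {z0} := by
            ext z
            constructor
            · rintro (hz | hz)
              · exact Or.inl (Or.inl hz)
              · rcases (hBi z).1 hz with h | h
                · exact Or.inl (Or.inr h)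
                · exact Or.inr h.2
            · rintro ((hz | hz) | hz)
              · exact Or.inl hz
              · exact Or.inr ((hBi z).2 (Or.inl hz))
              · refine Or.inr ((hBi z).2 (Or.inr ⟨?_, hz⟩))
                rw [Set.mem_singleton_iff.1 hz]; exact hz0
          refine good_congr (good_point (hpt z0 hz0 ((⟨z0⟩ : WO) : WithTop WO))) ?_
          intro h
          simp only [Set.mem_ofPred_eq]
          rw [hEi]
          constructor
          · rintro ⟨-, h1, h2⟩
            exact ⟨h1 _ hji, h2⟩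
          · rintro ⟨h1, h2⟩
            refine ⟨⟨(le_JJ_left _ _).trans h1, h2.trans ?_⟩, fun j' hj' => ?_, h2⟩
            · rw [← hEi]
              exact JJ_le (dd_mono hUT) (dd_mono (hET i))
            · exact (dd_mono (JJ_mono (hE (hj j' hj')))).trans h1
        · have hEi : E i = E ((⟨z0⟩ : WO) : WithTop WO) := by
            ext z
            constructor
            · rintro (hz | hz)
              · exact Or.inl hz
              · rcases (hBi z).1 hz with h | h
                · exact Or.inr h
                · rw [h.2] at h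
                  exact absurd h.1 hz0
            · rintro (hz | hz)
              · exact Or.inl hz
              · exact Or.inr ((hBi z).2 (Or.inl hz))
          refine good_of_small {dd (JJ U (E i))} ?_ (card_single_le _) (chn_single _) ?_
          · rintro f rfl
            refine ⟨⟨le_JJ_left _ _, JJ_le (dd_mono hUT) (dd_mono (hET i))⟩, fun j' hj' => ?_, le_rfl⟩
            exact dd_mono (JJ_mono (hE hj'.le))
          · rintro h ⟨-, h1, h2⟩
            refine ⟨_, rfl, h2, ?_⟩
            rw [hEi]
            exact h1 _ hji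
      · -- limit
        push Not at hmax
        have hlim : (⋃ j : {j // j < i}, JJ U (E j.1)) = JJ U (E i) := by
          ext w
          rw [Set.mem_iUnion]
          constructor
          · rintro ⟨⟨j, hj⟩, hw⟩
            exact JJ_mono (hE hj.le) hw
          · rintro (hw | ⟨h0, hw⟩)
            · exact ⟨⟨j0, hj0⟩, Or.inl hw⟩
            · rcases hw with hw | hw
              · exact ⟨⟨j0, hj0⟩, Or.inr ⟨h0, Or.inl hw⟩⟩
              · obtain ⟨j', hj'1, hj'2⟩ := hmax _ hw.2
                exact ⟨⟨j', hj'1⟩, Or.inr ⟨h0, Or.inr ⟨hw.1, hj'2⟩⟩⟩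
        have key2 := good_limit (fun j : {j // j < i} => JJ U (E j.1))
          (fun a b hab => JJ_mono (hE hab))
        rw [hlim] at key2
        refine good_congr key2 ?_
        intro h
        simp only [Set.mem_ofPred_eq]
        constructor
        · rintro ⟨-, h1, h2⟩
          exact ⟨fun j => h1 j.1 j.2, h2⟩
        · rintro ⟨h1, h2⟩
          refine ⟨⟨(le_JJ_left _ _).trans (h1 ⟨j0, hj0⟩), h2.trans ?_⟩, fun j hj => h1 ⟨j, hj⟩, h2⟩
          exact JJ_le (dd_mono hUT) (dd_mono (hET i))
  · intro h hh hcomp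
    have htop : h ≤ dd (JJ U (E ⊤)) := by
      refine hh.2.trans ((dd_mono ?_).trans (le_JJ_right U (E ⊤)))
      intro z hz
      exact Or.inr ⟨hz, WithTop.coe_lt_top _⟩
    let X : Set (WithTop WO) := {i | h ≤ dd (JJ U (E i))}
    have hX : X.Nonempty := ⟨⊤, htop⟩
    refine ⟨WellFounded.min (wellFounded_lt (α := WithTop WO)) X hX, fun j hj => ?_,
      WellFounded.min_mem (wellFounded_lt (α := WithTop WO)) X hX⟩
    rcases hcomp j with h1 | h1
    · exact absurd hj (WellFounded.not_lt_min (wellFounded_lt (α := WithTop WO)) X h1)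
    · exact h1
  · intro i
    exact ⟨le_JJ_left _ _, JJ_le (dd_mono hUT) (dd_mono (hET i))⟩

/-- **The degrees below the degree of the identity have a maximal chain of size at most `𝔠`.** -/
theorem good_lower : Good {h | h ≤ dd Set.univ} := by
  refine glue (I := Seg) card_Seg (fun T => dd T.1) (fun S T hST => dd_mono hST) _ ?_ ?_ ?_
  · intro T
    by_cases hmin : ∃ x ∈ T.1, ∀ y ∈ T.1, key x ≤ key y
    · obtain ⟨x, hxT, hx⟩ := hmin
      have hT : T.1 = {y | key x ≤ key y} := by
        ext y
        exact ⟨hx y, fun hy => T.2 x hxT y hy⟩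
      have hUseg : ∀ z ∈ {y | key x < key y}, ∀ y, key z ≤ key y → y ∈ {y | key x < key y} :=
        fun z hz y hzy => lt_of_lt_of_le hz hzy
      let U : Seg := ⟨{y | key x < key y}, hUseg⟩
      have hUT : U < T := by
        rw [lt_iff_le_not_ge]
        refine ⟨?_, ?_⟩
        · show U.1 ⊆ T.1
          rw [hT]
          intro y hy
          have h1 : key x < key y := hy
          exact h1.le
        · intro hle
          have h1 : key x < key x := hle hxT
          exact lt_irrefl _ h1
      have hjU : ∀ j : Seg, j < T → j ≤ U := by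
        intro j hj y hy
        by_contra hyU
        have hyx : key y ≤ key x := not_lt.1 hyU
        have hxj : x ∈ j.1 := j.2 y hy x hyx
        have hTj : T ≤ j := by
          intro z hz
          exact j.2 x hxj z (hx z hz)
        exact absurd hj (not_lt.2 hTj)
      refine good_congr (good_jump x) ?_
      intro h
      simp only [Set.mem_ofPred_eq]
      rw [← hT]
      constructor
      · rintro ⟨-, h1, h2⟩
        exact ⟨h1 U hUT, h2⟩
      · rintro ⟨h1, h2⟩
        refine ⟨h2.trans (dd_mono (Set.subset_univ _)), fun j hj => ?_, h2⟩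
        exact (dd_mono (hjU j hj)).trans h1
    · push Not at hmin
      have hlim : (⋃ j : {j : Seg // j < T}, j.1.1) = T.1 := by
        ext y
        rw [Set.mem_iUnion]
        constructor
        · rintro ⟨⟨j, hj⟩, hy⟩
          exact hj.le hy
        · intro hy
          obtain ⟨z, hz, hzy⟩ := hmin y hy
          let V : Seg := ⟨{w | key y ≤ key w}, fun a ha b hab => le_trans ha hab⟩
          have hVT : V < T := by
            rw [lt_iff_le_not_ge]
            refine ⟨fun w hw => T.2 y hy w hw, fun hle => ?_⟩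
            have : key y ≤ key z := hle hz
            exact absurd hzy (not_lt.2 this)
          exact ⟨⟨V, hVT⟩, (le_refl (key y) : key y ≤ key y)⟩
      have key2 := good_limit (fun j : {j : Seg // j < T} => j.1.1) (fun a b hab => hab)
      rw [hlim] at key2
      refine good_congr key2 ?_
      intro h
      simp only [Set.mem_ofPred_eq]
      constructor
      · rintro ⟨-, h1, h2⟩
        exact ⟨fun j => h1 j.1 j.2, h2⟩
      · rintro ⟨h1, h2⟩
        exact ⟨h2.trans (dd_mono (Set.subset_univ _)), fun j hj => h1 ⟨j, hj⟩, h2⟩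
  · intro h hh hcomp
    let T : Seg := ⟨{y | ∃ x ∈ h.dom, key x ≤ key y}, by
      rintro y ⟨x, hx, hxy⟩ z hyz
      exact ⟨x, hx, hxy.trans hyz⟩⟩
    refine ⟨T, fun j hj => ?_, le_dd_of_dom hh fun x hx => ⟨x, hx, le_rfl⟩⟩
    rcases hcomp j with h1 | h1
    · exfalso
      have h2 := dom_subset h1
      have : T ≤ j := by
        rintro y ⟨x, hx, hxy⟩
        exact j.2 x (h2 hx) y hxy
      exact absurd hj (not_lt.2 this)
    · exact h1
  · intro T
    exact dd_mono (Set.subset_univ _)

/-- The Weihrauch preorder has a maximal chain of size at most `𝔠`, which includes a chain maximal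
among the problems in `GW` above the identity. -/
theorem exists_max_chain_univ : ∃ C C2 : Set Problem, C2 ⊆ C ∧ #C ≤ 𝔠 ∧ Chn C ∧
    (∀ h : Problem, (∀ c ∈ C, h ≤ c ∨ c ≤ h) → ∃ c ∈ C, h ≤ c ∧ c ≤ h) ∧
    C2 ⊆ {h | h ∈ GW ∧ dd Set.univ ≤ h} ∧
    ∀ h ∈ {h | h ∈ GW ∧ dd Set.univ ≤ h}, (∀ c ∈ C2, h ≤ c ∨ c ≤ h) → h ∈ C2 := by
  obtain ⟨C1, hC1, hc1, hch1, hm1⟩ := good_lower
  obtain ⟨C2, hCQ, hch2, hCmax⟩ := exists_max_chain {h | h ∈ GW ∧ dd Set.univ ≤ h}
  have hm2 := upper_max hCQ hch2 hCmax
  have hC2 : C2 ⊆ {h | dd Set.univ ≤ h} := fun f hf => (hCQ hf).2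
  have hc2 : #C2 ≤ 𝔠 := (Cardinal.mk_le_mk_of_subset (fun f hf => (hCQ hf).1)).trans GW_card
  refine ⟨C1 ∪ C2, C2, Set.subset_union_right, ?_, ?_, ?_, hCQ, hCmax⟩
  · refine (Cardinal.mk_union_le _ _).trans ?_
    exact Cardinal.add_le_of_le Cardinal.aleph0_le_continuum hc1 hc2
  · rintro f (hf | hf) g (hg | hg)
    · exact hch1 f hf g hg
    · exact Or.inl ((hC1 hf).trans (hC2 hg))
    · exact Or.inr ((hC1 hg).trans (hC2 hf))
    · exact hch2 f hf g hg
  · intro h hcomp
    obtain ⟨c, hc, h1, h2⟩ := hm1 (dd Set.univ) (le_refl (dd Set.univ))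
      (fun c hc => Or.inr (hC1 hc))
    have hcmp : h ≤ dd Set.univ ∨ dd Set.univ ≤ h := by
      rcases hcomp c (Or.inl hc) with h3 | h3
      · exact Or.inl (h3.trans h2)
      · exact Or.inr (h1.trans h3)
    rcases hcmp with h3 | h3
    · obtain ⟨c', hc', h4⟩ := hm1 h h3 fun c hc => hcomp c (Or.inl hc)
      exact ⟨c', Or.inl hc', h4⟩
    · obtain ⟨c', hc', h4⟩ := hm2 h h3 fun c hc => hcomp c (Or.inr hc)
      exact ⟨c', Or.inr hc', h4⟩

end Pool.Agent.Weih
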