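import Pool.Agent.Weih.Comp4

/-!
# The preorder of problems and the partial order of Weihrauch degrees
-/

set_option autoImplicit false

namespace Pool.Agent.Weih

open Nat.Partrec (Code)

theorem exists_red_self : ∃ k : Code × Code, ∀ f : Problem, Red k f f := by
  obtain ⟨c, hc⟩ := exists_code_id
  obtain ⟨d, hd⟩ := exists_code_snd
  exact ⟨(c, d), fun f x hx => ⟨x, hx, hc x, fun y hy => ⟨y, hy, hd x y⟩⟩⟩

theorem WLe.refl (f : Problem) : WLe f f :=
  let ⟨k, hk⟩ := exists_red_self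
  ⟨k, hk f⟩

theorem exists_red_trans (k l : Code × Code) :
    ∃ m : Code × Code, ∀ f g h : Problem, Red k f g → Red l g h → Red m f h := by
  obtain ⟨fc, hfc⟩ := exists_code_fst
  obtain ⟨sc, hsc⟩ := exists_code_snd
  obtain ⟨c1, hc1⟩ := App.comp k.1 l.1
  obtain ⟨zc, hzc⟩ := App.comp fc k.1
  obtain ⟨p, hp⟩ := exists_code_join zc sc
  obtain ⟨vc, hvc⟩ := App.comp p l.2
  obtain ⟨q, hq⟩ := exists_code_join fc vc
  obtain ⟨c2, hc2⟩ := App.comp q k.2
  refine ⟨(c1, c2), fun f g h hfg hgh x hx => ?_⟩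
  obtain ⟨z, hz, hxz, h1⟩ := hfg x hx
  obtain ⟨u, hu, hzu, h2⟩ := hgh z hz
  refine ⟨u, hu, hc1 _ _ _ hxz hzu, fun y hy => ?_⟩
  obtain ⟨v, hv, hv'⟩ := h2 y hy
  obtain ⟨w, hw, hw'⟩ := h1 v hv
  refine ⟨w, hw, ?_⟩
  have e1 : App zc (join x y) z := hzc _ _ _ (hfc x y) hxz
  have e2 : App p (join x y) (join z y) := hp _ _ _ e1 (hsc x y)
  have e3 : App vc (join x y) v := hvc _ _ _ e2 hv'
  have e4 : App q (join x y) (join x v) := hq _ _ _ (hfc x y) e3
  exact hc2 _ _ _ e4 hw'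

theorem WLe.trans {f g h : Problem} (h1 : WLe f g) (h2 : WLe g h) : WLe f h := by
  obtain ⟨k, hk⟩ := h1
  obtain ⟨l, hl⟩ := h2
  obtain ⟨m, hm⟩ := exists_red_trans k l
  exact ⟨m, hm _ _ _ hk hl⟩

/-- Problems are preordered by Weihrauch reducibility: `f ≤ g` means `WLe f g`. -/
instance : Preorder Problem where
  le := WLe
  le_refl := WLe.refl
  le_trans := fun _ _ _ => WLe.trans

/-- The Weihrauch degrees: the partial order of the equivalence classes of problems. -/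
abbrev Degree : Type := Antisymmetrization Problem (· ≤ ·)

end Pool.Agent.Weih
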