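import Pool.Agent.Weih.Good

set_option autoImplicit false

namespace Pool.Agent.Weih

open Nat.Partrec (Code)
open Encodable Cardinal

/-- the point of Baire space coding the number `n` -/
def nu (n : ℕ) : ℕ → ℕ := cons n (fun _ => 0)

theorem nu_injective : Function.Injective nu := fun _ _ h => congrFun h 0

/-- the problem with domain `S` all of whose solution sets are the whole space -/
def dd (S : Set (ℕ → ℕ)) : Problem := ⟨fun x => {_y | x ∈ S}⟩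

theorem dd_dom (S : Set (ℕ → ℕ)) : (dd S).dom = S := by
  ext x
  constructor
  · rintro ⟨y, hy⟩; exact hy
  · intro hx; exact ⟨x, hx⟩

theorem dd_sub_iff {S T : Set (ℕ → ℕ)} (h : S ⊆ T) : Sub (dd S) (dd T) := by
  intro x hx
  rw [dd_dom] at hx
  exact ⟨by rw [dd_dom]; exact h hx, fun y _ => hx⟩

theorem dd_mono {S T : Set (ℕ → ℕ)} (h : S ⊆ T) : dd S ≤ dd T := (dd_sub_iff h).le

theorem dd_le_iff {S : Set (ℕ → ℕ)} {h : Problem} :
    dd S ≤ h ↔ ∃ c : Code, ∀ x ∈ S, ∃ z ∈ h.dom, App c x z := by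
  constructor
  · rintro ⟨k, hk⟩
    refine ⟨k.1, fun x hx => ?_⟩
    obtain ⟨z, hz, happ, -⟩ := hk x (by rw [dd_dom]; exact hx)
    exact ⟨z, hz, happ⟩
  · rintro ⟨c, hc⟩
    obtain ⟨d, hd⟩ := exists_code_snd
    refine ⟨(c, d), fun x hx => ?_⟩
    rw [dd_dom] at hx
    obtain ⟨z, hz, happ⟩ := hc x hx
    exact ⟨z, hz, happ, fun y _ => ⟨y, hx, hd x y⟩⟩

/-- problems whose instances and solutions are (codes of) natural numbers -/
def GW : Set Problem := {f | ∀ x y, y ∈ f.sol x → (∃ n, x = nu n) ∧ ∃ n, y = nu n}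

theorem GW_zero : zero ∈ GW := by
  intro x y hy
  exact absurd hy (Set.notMem_empty _)

theorem exists_code_const_nu (m : ℕ) : ∃ c : Code, ∀ x : ℕ → ℕ, App c x (nu m) := by
  obtain ⟨c, hc⟩ := exists_code_of_use (fun _ => 0)
    (fun n _ => if n = 0 then m else 0) (Primrec.const 0) (by
      refine Primrec.ite (Primrec.eq.comp Primrec.fst (Primrec.const 0)) (Primrec.const m)
        (Primrec.const 0))
  refine ⟨c, fun x => ?_⟩
  have := hc x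
  convert this using 1
  funext n
  cases n <;> rfl

theorem GW_cl : Cl GW where
  zero := GW_zero
  sup := by
    intro A hA x y hy
    obtain ⟨⟨f, hf, hx⟩, h2⟩ := hy
    exact hA hf x y (h2 f hf hx)
  inf := by
    rintro A hA - x y ⟨-, g, hg, hy⟩
    exact hA hg x y hy
  tsum := by
    intro H hH
    refine ⟨⟨fun x => {y | ∃ e n, x = nu (Nat.pair e n) ∧ y ∈ (H e).sol (nu n)}⟩, ?_, ?_, ?_⟩
    · rintro x y ⟨e, n, hx, hy⟩
      exact ⟨⟨_, hx⟩, (hH e _ _ hy).2⟩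
    · obtain ⟨c, hc⟩ := exists_code_split
      obtain ⟨d, hd⟩ := exists_code_snd
      refine ⟨(c, d), ?_⟩
      rintro x ⟨y0, e, n, rfl, hy0⟩
      refine ⟨cons e (cons n (fun _ => 0)), ⟨y0, hy0⟩, hc _ _ _, fun y hy => ?_⟩
      exact ⟨y, ⟨e, n, rfl, hy⟩, hd _ _⟩
    · obtain ⟨c, hc⟩ := exists_code_merge
      obtain ⟨d, hd⟩ := exists_code_snd
      refine ⟨(c, d), ?_⟩
      intro x hx
      obtain ⟨y0, hy0⟩ := hx
      obtain ⟨⟨n, hn⟩, -⟩ := hH (x 0) _ _ hy0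
      have hx : x = cons (x 0) (cons n (fun _ => 0)) := by
        conv_lhs => rw [← cons_tail x]
        rw [hn]; rfl
      have hsolx : (tsum H).sol x = (H (x 0)).sol (nu n) := by rw [tsum_sol, hn]
      refine ⟨nu (Nat.pair (x 0) n), ⟨y0, x 0, n, rfl, by rw [← hn]; exact hy0⟩, ?_, ?_⟩
      · have := hc (x 0) n (fun _ => 0)
        rw [← hx] at this
        exact this
      · rintro y ⟨e', n', he, hy⟩
        have h1 := nu_injective he
        obtain ⟨rfl, rfl⟩ := Nat.pair_eq_pair.1 h1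
        exact ⟨y, by rw [hsolx]; exact hy, hd _ _⟩

theorem GW_small (b : Problem) (hb : b ∈ GW) (w : ℕ → ℕ) (hw : w ∈ b.dom) :
    ∃ q ∈ GW, Sub q b ∧ w ∈ q.dom ∧ q.sol w ⊆ b.sol w ∧ q ≤ dd Set.univ := by
  obtain ⟨y0, hy0⟩ := hw
  obtain ⟨-, ⟨m, hm⟩⟩ := hb _ _ hy0
  refine ⟨⟨fun x => {y | x = w ∧ y ∈ b.sol w}⟩, ?_, ?_, ⟨y0, rfl, hy0⟩, fun y hy => hy.2, ?_⟩
  · rintro x y ⟨rfl, hy⟩
    exact hb _ _ hy
  · rintro x ⟨y, rfl, hy⟩
    exact ⟨⟨y, hy⟩, fun y hy => ⟨rfl, hy⟩⟩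
  · obtain ⟨c, hc⟩ := exists_code_id
    obtain ⟨d, hd⟩ := exists_code_const_nu m
    refine ⟨(c, d), ?_⟩
    rintro x ⟨y, rfl, hy⟩
    refine ⟨x, by rw [dd_dom]; trivial, hc x, fun y' _ => ⟨nu m, ⟨rfl, by rw [← hm]; exact hy0⟩, hd _⟩⟩

theorem GW_unbounded (F : Problem) : ∃ c ∈ GW, ¬ c ≤ F := by
  have key : ∀ k : Code × Code, ∃ m : ℕ, ¬ ∃ z ∈ F.dom, App k.1 (nu (encode k)) z ∧
      ∀ y ∈ F.sol z, App k.2 (join (nu (encode k)) y) (nu m) := by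
    intro k
    by_contra hcon
    push Not at hcon
    obtain ⟨z0, hz0, h0, h0'⟩ := hcon 0
    obtain ⟨z1, hz1, h1, h1'⟩ := hcon 1
    have := App.unique h0 h1
    subst this
    obtain ⟨y, hy⟩ := hz0
    have := nu_injective (App.unique (h0' y hy) (h1' y hy))
    exact absurd this (by norm_num)
  choose m hm using key
  refine ⟨⟨fun x => {y | ∃ k : Code × Code, x = nu (encode k) ∧ y = nu (m k)}⟩, ?_, ?_⟩
  · rintro x y ⟨k, hx, hy⟩
    exact ⟨⟨_, hx⟩, ⟨_, hy⟩⟩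
  · rintro ⟨k, hk⟩
    apply hm k
    obtain ⟨z, hz, happ, h1⟩ := hk (nu (encode k)) ⟨nu (m k), k, rfl, rfl⟩
    refine ⟨z, hz, happ, fun y hy => ?_⟩
    obtain ⟨w, ⟨k', hk', hw⟩, hw'⟩ := h1 y hy
    have h2 := encode_injective (nu_injective hk')
    subst h2
    rw [hw] at hw'
    exact hw'

theorem GW_card : #GW ≤ 𝔠 := by
  let F : GW → Set (ℕ × ℕ) := fun f => {p | nu p.2 ∈ f.1.sol (nu p.1)}
  have hF : Function.Injective F := by
    rintro ⟨⟨f⟩, hf⟩ ⟨⟨g⟩, hg⟩ hfg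
    simp only [Subtype.mk.injEq, Problem.mk.injEq]
    funext x
    ext y
    constructor
    · intro hy
      obtain ⟨⟨n, hn⟩, ⟨m, hm⟩⟩ := hf x y hy
      have h1 : (n, m) ∈ F ⟨⟨f⟩, hf⟩ := by
        show nu m ∈ f (nu n)
        rw [← hn, ← hm]; exact hy
      rw [hfg] at h1
      have h2 : nu m ∈ g (nu n) := h1
      rwa [← hn, ← hm] at h2
    · intro hy
      obtain ⟨⟨n, hn⟩, ⟨m, hm⟩⟩ := hg x y hy
      have h1 : (n, m) ∈ F ⟨⟨g⟩, hg⟩ := by
        show nu m ∈ g (nu n)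
        rw [← hn, ← hm]; exact hy
      rw [← hfg] at h1
      have h2 : nu m ∈ f (nu n) := h1
      rwa [← hn, ← hm] at h2
  have h1 := Cardinal.mk_le_of_injective hF
  refine h1.trans ?_
  simp

/-- A chain which is maximal among the problems in `GW` above the identity is maximal among all the
problems above the identity. -/
theorem upper_max {C : Set Problem} (hCQ : C ⊆ {h | h ∈ GW ∧ dd Set.univ ≤ h}) (hCch : Chn C)
    (hCmax : ∀ h ∈ {h | h ∈ GW ∧ dd Set.univ ≤ h}, (∀ c ∈ C, h ≤ c ∨ c ≤ h) → h ∈ C) :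
    ∀ h ∈ {h | dd Set.univ ≤ h}, (∀ c ∈ C, h ≤ c ∨ c ≤ h) → ∃ c ∈ C, h ≤ c ∧ c ≤ h := by
  intro h hh hcomp
  by_contra hne
  push Not at hne
  -- a bottom element
  obtain ⟨f0, hf0C, hf0⟩ : ∃ f0 ∈ C, f0 ≤ dd Set.univ := by
    let f0 : Problem := ⟨fun x => {y | x = nu 0 ∧ y = nu 0}⟩
    have h1 : f0 ≤ dd Set.univ := by
      obtain ⟨c, hc⟩ := exists_code_id
      obtain ⟨d, hd⟩ := exists_code_const_nu 0
      refine ⟨(c, d), ?_⟩
      rintro x ⟨y, rfl, hy⟩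
      exact ⟨_, by rw [dd_dom]; trivial, hc _, fun y' _ => ⟨nu 0, ⟨rfl, rfl⟩, hd _⟩⟩
    have h2 : dd Set.univ ≤ f0 := by
      rw [dd_le_iff]
      obtain ⟨d, hd⟩ := exists_code_const_nu 0
      exact ⟨d, fun x _ => ⟨nu 0, ⟨nu 0, rfl, rfl⟩, hd x⟩⟩
    refine ⟨f0, ?_, h1⟩
    apply hCmax
    · refine ⟨?_, h2⟩
      rintro x y ⟨hx, hy⟩
      exact ⟨⟨0, hx⟩, ⟨0, hy⟩⟩
    · intro c hc
      exact Or.inl (h1.trans (hCQ hc).2)
  set L : Set Problem := {f | f ∈ C ∧ f ≤ h} with hLdef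
  set R : Set Problem := {f | f ∈ C ∧ h ≤ f} with hRdef
  have hLh : ∀ f ∈ L, f ≤ h ∧ ¬ h ≤ f := fun f hf => ⟨hf.2, fun hle => hne f hf.1 hle hf.2⟩
  have hRh : ∀ f ∈ R, h ≤ f ∧ ¬ f ≤ h := fun f hf => ⟨hf.2, fun hle => hne f hf.1 hf.2 hle⟩
  have hf0L : f0 ∈ L := ⟨hf0C, hf0.trans hh⟩
  have hLch : Chn L := fun f hf g hg => hCch f hf.1 g hg.1
  have hRch : Chn R := fun f hf g hg => hCch f hf.1 g hg.1
  by_cases hR : R.Nonempty
  · obtain ⟨g, hgG, hgL, hgR⟩ := fill GW_cl (fun f hf => (hCQ hf.1).1) (fun f hf => (hCQ hf.1).1)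
      hLch hRch hR (by
        intro b hb w hw
        obtain ⟨q, h1, h2, h3, h4, h5⟩ := GW_small b (hCQ hb.1).1 w hw
        exact ⟨q, h1, h2, h3, h4, f0, hf0L, h5.trans (hCQ hf0C).2⟩) hLh hRh
    have hgC : g ∈ C := by
      apply hCmax
      · exact ⟨hgG, (hCQ hf0C).2.trans (hgL f0 hf0L).1⟩
      · intro c hc
        rcases hcomp c hc with h1 | h1
        · exact Or.inl (hgR c ⟨hc, h1⟩).1
        · exact Or.inr (hgL c ⟨hc, h1⟩).1
    rcases hcomp g hgC with h1 | h1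
    · exact (hgR g ⟨hgC, h1⟩).2 le_rfl
    · exact (hgL g ⟨hgC, h1⟩).2 le_rfl
  · -- `C` is bounded by `h`
    have hCL : ∀ f ∈ C, f ∈ L := by
      intro f hf
      rcases hcomp f hf with h1 | h1
      · exact absurd ⟨f, hf, h1⟩ hR
      · exact ⟨hf, h1⟩
    obtain ⟨F, hFG, hF⟩ : ∃ F ∈ GW, ∀ f ∈ C, f ≤ F := by
      rcases dichotomy_left hLch h with ⟨k, hk⟩ | hseq
      · refine ⟨supFam {f | f ∈ L ∧ Red k f h}, GW_cl.sup _ (fun f hf => (hCQ hf.1.1).1), ?_⟩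
        intro f hf
        obtain ⟨f', hf', hle, hr⟩ := hk f (hCL f hf)
        have hr' : ∀ f ∈ {f | f ∈ L ∧ Red k f h}, Red k f h := fun f hf => hf.2
        exact hle.trans (sub_supFam hr' ⟨hf', hr⟩).le
      · obtain ⟨a, -, haL, hacof⟩ := hseq (fun f hf => hf.2)
        obtain ⟨g, hgG, hg1, hg2⟩ := GW_cl.tsum a (fun n => (hCQ (haL n).1).1)
        refine ⟨g, hgG, fun f hf => ?_⟩
        obtain ⟨n, hn⟩ := hacof f (hCL f hf)
        exact hn.trans ((le_tsum a n).trans hg2)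
    obtain ⟨c, hcG, hc⟩ := GW_unbounded F
    obtain ⟨g, hgG, hg1, hg2⟩ := GW_cl.tsum (fun n => if n = 0 then F else c) (by
      intro e
      by_cases he : e = 0
      · simp [he, hFG]
      · simp [he, hcG])
    have hFg : F ≤ g := (le_tsum (fun n => if n = 0 then F else c) 0).trans hg2
    have hcg : c ≤ g := (le_tsum (fun n => if n = 0 then F else c) 1).trans hg2
    have hgC : g ∈ C := by
      apply hCmax
      · exact ⟨hgG, (hCQ hf0C).2.trans ((hF f0 hf0C).trans hFg)⟩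
      · intro f hf
        exact Or.inr ((hF f hf).trans hFg)
    exact hc (hcg.trans (hF g hgC))

/-- **The cone above the degree of the identity has a maximal chain of size at most `𝔠`.** -/
theorem good_upper : Good {h | dd Set.univ ≤ h} := by
  obtain ⟨C, hCQ, hCch, hCmax⟩ := exists_max_chain {h | h ∈ GW ∧ dd Set.univ ≤ h}
  exact ⟨C, fun f hf => (hCQ hf).2,
    (Cardinal.mk_le_mk_of_subset (fun f hf => (hCQ hf).1)).trans GW_card, hCch,
    upper_max hCQ hCch hCmax⟩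

/-- Countable cuts of a chain which is maximal among the problems in `GW` above the identity are
filled. -/
theorem upper_cut {C : Set Problem} (hCQ : C ⊆ {h | h ∈ GW ∧ dd Set.univ ≤ h}) (hCch : Chn C)
    (hCmax : ∀ h ∈ {h | h ∈ GW ∧ dd Set.univ ≤ h}, (∀ c ∈ C, h ≤ c ∨ c ≤ h) → h ∈ C)
    {a b : ℕ → Problem} (haC : ∀ n, a n ∈ C) (hbC : ∀ n, b n ∈ C) (ha : Monotone a)
    (hb : Antitone b) (hab : ∀ i j, a i ≤ b j) (hnba : ∀ i j, ¬ b j ≤ a i) :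
    ∃ c ∈ C, (∀ i, a i ≤ c ∧ ¬ c ≤ a i) ∧ ∀ j, c ≤ b j ∧ ¬ b j ≤ c := by
  by_contra hcon
  push Not at hcon
  obtain ⟨H, hHG, h1, h2, h3, h4⟩ := interpolation (P := GW) hab hnba ha hb
    (fun i => (hCQ (haC i)).1) GW_zero (by
      intro j w hw
      obtain ⟨q, hqG, hqs, hqd, hqw, hqu⟩ := GW_small (b j) (hCQ (hbC j)).1 w hw
      exact ⟨q, hqG, hqs, hqd, hqw, 0, hqu.trans (hCQ (haC 0)).2⟩)
  obtain ⟨g, hgG, hg1, hg2⟩ := GW_cl.tsum H hHG
  have hag : ∀ i, a i ≤ g := fun i => (h1 i).trans hg2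
  have hgb : ∀ j, g ≤ b j := fun j => hg1.trans (h2 j)
  have hga : ∀ i, ¬ g ≤ a i := fun i hle => h3 i (hg2.trans hle)
  have hbg : ∀ j, ¬ b j ≤ g := fun j hle => h4 j (hle.trans hg1)
  have hgC : g ∈ C := by
    refine hCmax g ⟨hgG, (hCQ (haC 0)).2.trans (hag 0)⟩ fun c hc => ?_
    by_cases hA : ∀ i, a i ≤ c ∧ ¬ c ≤ a i
    · obtain ⟨j, hj⟩ := hcon c hc hA
      rcases hCch c hc (b j) (hbC j) with h5 | h5
      · exact Or.inl ((hgb j).trans (hj h5))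
      · exact Or.inl ((hgb j).trans h5)
    · push Not at hA
      obtain ⟨i, hi⟩ := hA
      rcases hCch c hc (a i) (haC i) with h5 | h5
      · exact Or.inr (h5.trans (hag i))
      · exact Or.inr ((hi h5).trans (hag i))
  obtain ⟨j, hj⟩ := hcon g hgC fun i => ⟨hag i, hga i⟩
  exact hbg j (hj (hgb j))

/-- A chain which is maximal among the problems in `GW` above the identity has two different
elements. -/
theorem upper_nontrivial {C : Set Problem} (hCQ : C ⊆ {h | h ∈ GW ∧ dd Set.univ ≤ h})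
    (hCmax : ∀ h ∈ {h | h ∈ GW ∧ dd Set.univ ≤ h}, (∀ c ∈ C, h ≤ c ∨ c ≤ h) → h ∈ C) :
    ∃ f ∈ C, ∃ g ∈ C, ¬ g ≤ f := by
  by_contra hcon
  push Not at hcon
  let f0 : Problem := ⟨fun x => {y | x = nu 0 ∧ y = nu 0}⟩
  have hf0G : f0 ∈ GW := by
    rintro x y ⟨hx, hy⟩
    exact ⟨⟨0, hx⟩, ⟨0, hy⟩⟩
  have h1 : f0 ≤ dd Set.univ := by
    obtain ⟨c, hc⟩ := exists_code_id
    obtain ⟨d, hd⟩ := exists_code_const_nu 0
    refine ⟨(c, d), ?_⟩
    rintro x ⟨y, rfl, hy⟩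
    exact ⟨_, by rw [dd_dom]; trivial, hc _, fun y' _ => ⟨nu 0, ⟨rfl, rfl⟩, hd _⟩⟩
  have h2 : dd Set.univ ≤ f0 := by
    rw [dd_le_iff]
    obtain ⟨d, hd⟩ := exists_code_const_nu 0
    exact ⟨d, fun x _ => ⟨nu 0, ⟨nu 0, rfl, rfl⟩, hd x⟩⟩
  have hf0 : f0 ∈ C := hCmax f0 ⟨hf0G, h2⟩ fun c hc => Or.inl (h1.trans (hCQ hc).2)
  obtain ⟨c, hcG, hc⟩ := GW_unbounded f0
  obtain ⟨g, hgG, hg1, hg2⟩ := GW_cl.tsum (fun n => if n = 0 then f0 else c) (by
    intro e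
    by_cases he : e = 0
    · simp [he, hf0G]
    · simp [he, hcG])
  have hFg : f0 ≤ g := (le_tsum (fun n => if n = 0 then f0 else c) 0).trans hg2
  have hcg : c ≤ g := (le_tsum (fun n => if n = 0 then f0 else c) 1).trans hg2
  have hgC : g ∈ C := hCmax g ⟨hgG, h2.trans hFg⟩ fun f hf => Or.inr ((hcon f0 hf0 f hf).trans hFg)
  exact hc (hcg.trans (hcon f0 hf0 g hgC))

end Pool.Agent.Weih
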